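import Pool.Agent.Helper86.DistSum.Attain

/-!
Statement for finite subsets of the sphere.
-/

namespace Pool.Agent.Helper86.DistSum

open Finset

section general

variable {ι : Type*} [Fintype ι] [DecidableEq ι]
variable {E : Type*} [NormedAddCommGroup E] [InnerProductSpace ℝ E]

/-- general upper bound valid for all `N > d`. -/
theorem general_bound {r : ℕ} [FiniteDimensional ℝ E] {x : ι → E}
    (hx : ∀ i, ‖x i‖ = 1)
    (hr : Module.finrank ℝ E + r ≤ Fintype.card ι) (hrN : r < Fintype.card ι) :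
    offsum (fun i j => √(1 - inner ℝ (x i) (x j)))
      ≤ (Fintype.card ι : ℝ) ^ 2
        - Fintype.card ι / (1 + √(1 - (r : ℝ) / Fintype.card ι)) := by
  obtain ⟨P, h1, h2, h3, h4, h5⟩ := exists_proj x r hr
  have h := projData_of hx h1 h2 h3 h5
  have hg1 : ∀ i j, inner ℝ (x i) (x j) ≤ (1:ℝ) := by
    intro i j
    have := real_inner_le_norm (x i) (x j)
    rw [hx i, hx j] at this
    linarith
  have hq : ∀ i j, 0 < 1 - nub (h.s i) (h.s j) * P i j := fun i j => by linarith [h.q_lt i j]
  have hstep : ∀ i j, i ≠ j → √(1 - inner ℝ (x i) (x j))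
      ≤ ((1 - nub (h.s i) (h.s j) * P i j) * (1 - inner ℝ (x i) (x j))
        + 1 / (1 - nub (h.s i) (h.s j) * P i j)) / 2 := by
    intro i j _
    have := amgm (z := √(1 - inner ℝ (x i) (x j))) (hq i j)
    rw [Real.sq_sqrt (by linarith [hg1 i j])] at this
    exact this
  have hle := offsum_le hstep
  rw [total_identity hx h h3] at hle
  have hnn : 0 ≤ ‖∑ i, x i‖ ^ 2 := sq_nonneg _
  have hSS : 0 ≤ offsum (fun i j => P i j ^ 2 * SS (h.s i) (h.s j) (P i j)) := by
    unfold offsum
    apply Finset.sum_nonneg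
    intro i _
    apply Finset.sum_nonneg
    intro j _
    exact mul_nonneg (sq_nonneg _)
      (SS_nonneg (h.s_pos i) (h.s_le i) (h.s_pos j) (h.s_le j) (h.abs_le i j))
  set N : ℝ := (Fintype.card ι : ℝ) with hN
  have hN0 : 0 < N := by
    rw [hN]; exact_mod_cast (by omega : 0 < Fintype.card ι)
  have hrN' : (r : ℝ) < N := by rw [hN]; exact_mod_cast hrN
  have hfrac : (r : ℝ) / N < 1 := by rw [div_lt_one hN0]; exact hrN'
  have hfrac0 : 0 ≤ (r : ℝ) / N := by positivity
  set t := √(1 - (r : ℝ) / N) with ht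
  have ht0 : 0 < t := Real.sqrt_pos.mpr (by linarith)
  have htsq : t ^ 2 = 1 - r / N := Real.sq_sqrt (by linarith)
  have hee : N * ee t ≤ ∑ i, ee (h.s i) := by
    have hD : 0 ≤ ∑ i, DD (h.s i) t :=
      Finset.sum_nonneg (fun i _ => DD_nonneg (h.s_pos i) ht0)
    have e1 : ∑ i, DD (h.s i) t = ∑ i, ee (h.s i) - N * ee t - ww t * (∑ i, P i i - N * (1 - t ^ 2)) := by
      have : ∀ i, DD (h.s i) t = ee (h.s i) - ee t - ww t * (P i i - (1 - t ^ 2)) := by
        intro i
        unfold DD
        rw [← h.s_sq i]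
        ring
      simp_rw [this]
      rw [Finset.sum_sub_distrib, Finset.sum_sub_distrib, ← Finset.mul_sum, Finset.sum_sub_distrib,
        Finset.sum_const, Finset.sum_const, Finset.card_univ, nsmul_eq_mul, nsmul_eq_mul]
    rw [e1, h4, htsq] at hD
    have e2 : (r : ℝ) - N * (1 - (1 - r / N)) = 0 := by field_simp; ring
    rw [e2] at hD
    linarith
  have hfin : N / (1 + t) = N / 2 + N * ee t / 2 := by
    unfold ee
    have : (1 + t) ≠ 0 := by positivity
    field_simp
    ring
  rw [hfin]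
  linarith

end general

/-- distance between unit vectors. -/
lemma dist_unit {E : Type*} [NormedAddCommGroup E] [InnerProductSpace ℝ E] {p q : E}
    (hp : ‖p‖ = 1) (hq : ‖q‖ = 1) : dist p q = √2 * √(1 - inner ℝ p q) := by
  have h1 : 0 ≤ 1 - inner ℝ p q := by
    have := real_inner_le_norm p q
    rw [hp, hq] at this
    linarith
  rw [dist_eq_norm, ← Real.sqrt_mul (by norm_num)]
  rw [eq_comm, Real.sqrt_eq_iff_mul_self_eq (by linarith) (norm_nonneg _)]
  have := norm_sub_sq_real p q
  rw [hp, hq] at this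
  nlinarith

section fin

variable {E : Type*} [NormedAddCommGroup E] [InnerProductSpace ℝ E]

/-- sum of distances over unordered pairs. -/
noncomputable def distSum (P : Finset E) : ℝ := (∑ p ∈ P, ∑ q ∈ P, dist p q) / 2

/-- conversion of a sum over ordered pairs. -/
lemma distSum_family {ι : Type*} [Fintype ι] [DecidableEq ι] {x : ι → E} (hx : ∀ i, ‖x i‖ = 1) :
    (∑ i, ∑ j, dist (x i) (x j)) / 2
      = √2 / 2 * offsum (fun i j => √(1 - inner ℝ (x i) (x j))) := by
  rw [offsum_eq]
  have hd : ∀ i, √(1 - inner ℝ (x i) (x i)) = 0 := by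
    intro i
    rw [real_inner_self_eq_norm_sq, hx i]; norm_num
  have e : ∀ i j, dist (x i) (x j) = √2 * √(1 - inner ℝ (x i) (x j)) :=
    fun i j => dist_unit (hx i) (hx j)
  simp_rw [e, hd, Finset.sum_const_zero, sub_zero, ← Finset.mul_sum]
  ring

lemma distSum_eq (P : Finset E) (hP : ∀ p ∈ P, ‖p‖ = 1) [DecidableEq {p // p ∈ P}] :
    distSum P = √2 / 2 * offsum (fun (i j : {p // p ∈ P}) => √(1 - inner ℝ (i : E) (j : E))) := by
  rw [← distSum_family (x := fun i : {p // p ∈ P} => (i : E)) (fun i => hP i.1 i.2)]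
  unfold distSum
  congr 1
  rw [← Finset.sum_coe_sort P (fun p => ∑ q ∈ P, dist p q)]
  apply Finset.sum_congr rfl
  intro i _
  rw [← Finset.sum_coe_sort P (fun q => dist (i : E) q)]

lemma distSum_image {ι : Type*} [Fintype ι] [DecidableEq ι] [DecidableEq E] {x : ι → E}
    (hinj : Function.Injective x) (hx : ∀ i, ‖x i‖ = 1) :
    distSum (univ.image x) = √2 / 2 * offsum (fun i j => √(1 - inner ℝ (x i) (x j))) := by
  rw [← distSum_family hx]
  unfold distSum
  rw [Finset.sum_image (fun a _ b _ hab => hinj hab)]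
  congr 1
  apply Finset.sum_congr rfl
  intro i _
  rw [Finset.sum_image (fun a _ b _ hab => hinj hab)]

/-- Union of mutually orthogonal regular simplices, class sizes `m` or `m+1`. -/
def IsOrthSimplexUnion (P : Finset E) (r m : ℕ) : Prop :=
  ∃ κ : E → Fin r,
    (∀ t, (P.filter (fun p => κ p = t)).card = m ∨ (P.filter (fun p => κ p = t)).card = m + 1) ∧
    ∀ p ∈ P, ∀ q ∈ P, p ≠ q → inner ℝ p q =
      if κ p = κ q then -(1 / (((P.filter (fun l => κ l = κ p)).card : ℝ) - 1)) else (0:ℝ)

omit [NormedAddCommGroup E] [InnerProductSpace ℝ E] in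
lemma filter_card_subtype {r : ℕ} (P : Finset E) (κ : E → Fin r) (t : Fin r) :
    (univ.filter (fun l : {p // p ∈ P} => κ l = t)).card = (P.filter (fun p => κ p = t)).card := by
  rw [Finset.card_filter, Finset.card_filter]
  exact Finset.sum_coe_sort P (fun p => if κ p = t then 1 else 0)

theorem isOrthSimplexUnion_iff {r m : ℕ} (P : Finset E) (hr : 0 < r) [DecidableEq {p // p ∈ P}] :
    IsOrthSimplexUnion P r m ↔ ∃ κ : {p // p ∈ P} → Fin r,
      OrthSimplices (fun i : {p // p ∈ P} => (i : E)) κ ∧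
      (∀ t, (univ.filter (fun j => κ j = t)).card = m ∨
        (univ.filter (fun j => κ j = t)).card = m + 1) := by
  classical
  constructor
  · rintro ⟨κ, h1, h2⟩
    refine ⟨fun i => κ i, ?_, ?_⟩
    · intro i j hij
      have := h2 i.1 i.2 j.1 j.2 (fun h => hij (Subtype.ext h))
      rw [this, filter_card_subtype]
    · intro t
      rw [filter_card_subtype]
      exact h1 t
  · rintro ⟨κ, h1, h2⟩
    set κ' : E → Fin r := fun p => if hp : p ∈ P then κ ⟨p, hp⟩ else ⟨0, hr⟩ with hκ'
    have hk : ∀ i : {p // p ∈ P}, κ' i = κ i := by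
      intro i
      rw [hκ']
      simp only [i.2, dif_pos]
    have hf : ∀ t, (P.filter (fun p => κ' p = t)).card = (univ.filter (fun j => κ j = t)).card := by
      intro t
      rw [← filter_card_subtype]
      congr 1
      apply Finset.filter_congr
      intro i _
      rw [hk]
    refine ⟨κ', ?_, ?_⟩
    · intro t
      rw [hf]
      exact h2 t
    · intro p hp q hq hpq
      have := h1 ⟨p, hp⟩ ⟨q, hq⟩ (fun h => hpq (congrArg Subtype.val h))
      have e1 : κ' p = κ ⟨p, hp⟩ := hk ⟨p, hp⟩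
      have e2 : κ' q = κ ⟨q, hq⟩ := hk ⟨q, hq⟩
      rw [hf, e1, e2]
      exact this

end fin

end Pool.Agent.Helper86.DistSum
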