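import Mathlib

/-!
Analytic lemmas for the sum-of-distances problem.
We parametrise `p ∈ [0,1)` by `s = √(1-p) ∈ (0,1]`, i.e. `p = 1 - s^2`.
-/

namespace Pool.Agent.Helper86.DistSum

/-- `e(p)` for `p = 1 - s^2`. -/
noncomputable def ee (s : ℝ) : ℝ := (1 - s) / (1 + s)

/-- derivative of `e` at `p = 1 - s^2`. -/
noncomputable def ww (s : ℝ) : ℝ := 1 / (s * (1 + s) ^ 2)

/-- second divided difference of `e`. -/
noncomputable def E3 (s1 s2 s3 : ℝ) : ℝ :=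
  2 * (1 + s1 + s2 + s3) /
    ((1 + s1) * (1 + s2) * (1 + s3) * ((s1 + s2) * (s2 + s3) * (s1 + s3)))

/-- slope of the chord of `e`. -/
noncomputable def slope (s1 s2 : ℝ) : ℝ := 2 / ((1 + s1) * (1 + s2) * (s1 + s2))

lemma E3_pos {s1 s2 s3 : ℝ} (h1 : 0 < s1) (h2 : 0 < s2) (h3 : 0 < s3) : 0 < E3 s1 s2 s3 := by
  unfold E3; positivity

lemma chord_id {s1 s2 s3 : ℝ} (h1 : 0 < s1) (h2 : 0 < s2) (h3 : 0 < s3) :
    ee s1 + slope s1 s2 * (s1 ^ 2 - s3 ^ 2) - ee s3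
      = (s1 ^ 2 - s3 ^ 2) * (s3 ^ 2 - s2 ^ 2) * E3 s1 s2 s3 := by
  unfold ee slope E3
  have a1 : (1 + s1) ≠ 0 := by positivity
  have a2 : (1 + s2) ≠ 0 := by positivity
  have a3 : (1 + s3) ≠ 0 := by positivity
  have a4 : (s1 + s2) ≠ 0 := by positivity
  have a5 : (s2 + s3) ≠ 0 := by positivity
  have a6 : (s1 + s3) ≠ 0 := by positivity
  field_simp
  ring

lemma chord_end {s1 s2 : ℝ} (h1 : 0 < s1) (h2 : 0 < s2) :
    ee s1 + slope s1 s2 * (s1 ^ 2 - s2 ^ 2) = ee s2 := by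
  unfold ee slope
  have a1 : (1 + s1) ≠ 0 := by positivity
  have a2 : (1 + s2) ≠ 0 := by positivity
  have a4 : (s1 + s2) ≠ 0 := by positivity
  field_simp
  ring

/-- Bregman divergence of `e` (exact). -/
noncomputable def DD (s t : ℝ) : ℝ := ee s - ee t - ww t * (t ^ 2 - s ^ 2)

lemma DD_id {s t : ℝ} (hs : 0 < s) (ht : 0 < t) :
    DD s t = (t - s) ^ 2 * (1 + s + 2 * t) / (t * (1 + s) * (1 + t) ^ 2) := by
  unfold DD ee ww
  have a1 : (1 + s) ≠ 0 := by positivity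
  have a2 : (1 + t) ≠ 0 := by positivity
  field_simp
  ring

lemma DD_nonneg {s t : ℝ} (hs : 0 < s) (ht : 0 < t) : 0 ≤ DD s t := by
  rw [DD_id hs ht]; positivity

lemma DD_eq_zero {s t : ℝ} (hs : 0 < s) (ht : 0 < t) (h : DD s t = 0) : s = t := by
  rw [DD_id hs ht] at h
  have h1 : 0 < t * (1 + s) * (1 + t) ^ 2 := by positivity
  have h2 : (t - s) ^ 2 * (1 + s + 2 * t) = 0 := by
    rcases div_eq_zero_iff.mp h with h | h
    · exact h
    · exact absurd h h1.ne'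
  have h3 : (t - s) ^ 2 = 0 := by
    rcases mul_eq_zero.mp h2 with h | h
    · exact h
    · have : 0 < 1 + s + 2 * t := by positivity
      exact absurd h this.ne'
  have := pow_eq_zero_iff (n := 2) (by norm_num) |>.mp h3
  linarith

/-- general lower bound with constant `K`, when `K * (t (1+t)^3) ≤ 1`. -/
lemma DD_lower {s t K : ℝ} (hs : 0 < s) (hs1 : s ≤ 1) (ht : 0 < t)
    (hK0 : 0 ≤ K) (hK : K * (t * (1 + t) ^ 3) ≤ 1) :
    K * (t ^ 2 - s ^ 2) ^ 2 ≤ DD s t := by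
  rw [DD_id hs ht, le_div_iff₀ (by positivity)]
  have key : K * (s + t) ^ 2 * (t * (1 + s) * (1 + t) ^ 2) ≤ 1 + s + 2 * t := by
    have h1 : K * t * (1 + t) ^ 3 ≤ 1 := by nlinarith
    -- (s+t)^2 (1+s) ≤ (1+t) * (1 + s + 2t)  for s ≤ 1
    have h2 : (s + t) ^ 2 * (1 + s) ≤ (1 + t) * (1 + s + 2 * t) := by
      have h3 : (1 + t) * (1 + s + 2 * t) - (s + t) ^ 2 * (1 + s)
          = (1 - s) * ((1 + s) ^ 2 + t * (3 + 2 * s) + t ^ 2) := by
        ring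
      have h4 : 0 ≤ (1 - s) * ((1 + s) ^ 2 + t * (3 + 2 * s) + t ^ 2) := by
        apply mul_nonneg (by linarith); positivity
      linarith
    calc K * (s + t) ^ 2 * (t * (1 + s) * (1 + t) ^ 2)
        = K * t * (1 + t) ^ 2 * ((s + t) ^ 2 * (1 + s)) := by ring
      _ ≤ K * t * (1 + t) ^ 2 * ((1 + t) * (1 + s + 2 * t)) := by
          apply mul_le_mul_of_nonneg_left h2; positivity
      _ = (K * t * (1 + t) ^ 3) * (1 + s + 2 * t) := by ring
      _ ≤ 1 * (1 + s + 2 * t) := by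
          apply mul_le_mul_of_nonneg_right h1; positivity
      _ = 1 + s + 2 * t := by ring
  calc K * (t ^ 2 - s ^ 2) ^ 2 * (t * (1 + s) * (1 + t) ^ 2)
      = (t - s) ^ 2 * (K * (s + t) ^ 2 * (t * (1 + s) * (1 + t) ^ 2)) := by ring
    _ ≤ (t - s) ^ 2 * (1 + s + 2 * t) := by
        apply mul_le_mul_of_nonneg_left key; positivity

end Pool.Agent.Helper86.DistSum
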