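import Pool.Agent.Helper86.DistSum.Classify

/-!
Existence of the extremal configurations.
-/

namespace Pool.Agent.Helper86.DistSum

open Finset

variable {ι : Type*} [Fintype ι] [DecidableEq ι]

/-- block sums. -/
noncomputable def blockSum {r : ℕ} (κ : ι → Fin r) : EuclideanSpace ℝ ι →ₗ[ℝ] (Fin r → ℝ) where
  toFun v := fun t => ∑ l ∈ univ.filter (fun l => κ l = t), v l
  map_add' a b := by ext t; simp [Finset.sum_add_distrib]
  map_smul' a b := by ext t; simp [Finset.mul_sum]

/-- the unnormalised simplex vectors. -/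
noncomputable def yvec {r : ℕ} (κ : ι → Fin r) (i : ι) : EuclideanSpace ℝ ι :=
  WithLp.toLp 2 (fun l => (if l = i then (1:ℝ) else 0)
    - (if κ l = κ i then 1 / ((univ.filter (fun l => κ l = κ i)).card : ℝ) else 0))

lemma yvec_apply {r : ℕ} (κ : ι → Fin r) (i l : ι) :
    yvec κ i l = (if l = i then (1:ℝ) else 0)
    - (if κ l = κ i then 1 / ((univ.filter (fun l => κ l = κ i)).card : ℝ) else 0) := rfl

lemma inner_yvec {r : ℕ} (κ : ι → Fin r) (i j : ι) :
    inner ℝ (yvec κ i) (yvec κ j) = (if i = j then (1:ℝ) else 0)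
      - (if κ i = κ j then 1 / ((univ.filter (fun l => κ l = κ i)).card : ℝ) else 0) := by
  rw [PiLp.inner_apply]
  have hcard : ((univ.filter (fun l => κ l = κ i)).card : ℝ) ≠ 0 := by
    have : i ∈ univ.filter (fun l => κ l = κ i) := by simp
    have := Finset.card_pos.mpr ⟨i, this⟩
    exact_mod_cast this.ne'
  have e : ∀ l, inner ℝ (yvec κ i l) (yvec κ j l)
      = (if l = i then (if l = j then (1:ℝ) else 0) else 0)
        - (if l = i then (if κ l = κ j then 1 / ((univ.filter (fun l => κ l = κ j)).card : ℝ) else 0) else 0)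
        - (if l = j then (if κ l = κ i then 1 / ((univ.filter (fun l => κ l = κ i)).card : ℝ) else 0) else 0)
        + (if κ l = κ i then (if κ l = κ j then 1 / ((univ.filter (fun l => κ l = κ i)).card : ℝ)
            * (1 / ((univ.filter (fun l => κ l = κ j)).card : ℝ)) else 0) else 0) := by
    intro l
    rw [yvec_apply, yvec_apply]
    simp only [RCLike.inner_apply, conj_trivial]
    split_ifs <;> ring
  rw [Finset.sum_congr rfl (fun l _ => e l), Finset.sum_add_distrib, Finset.sum_sub_distrib,
    Finset.sum_sub_distrib]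
  rw [Finset.sum_ite_eq' univ i, Finset.sum_ite_eq' univ i, Finset.sum_ite_eq' univ j]
  simp only [Finset.mem_univ, if_true]
  rw [← Finset.sum_filter]
  by_cases hk : κ i = κ j
  · rw [if_pos hk, if_pos hk.symm, if_pos hk]
    have e2 : ∑ l ∈ univ.filter (fun l => κ l = κ i), (if κ l = κ j then
        1 / ((univ.filter (fun l => κ l = κ i)).card : ℝ)
            * (1 / ((univ.filter (fun l => κ l = κ j)).card : ℝ)) else 0)
        = 1 / ((univ.filter (fun l => κ l = κ i)).card : ℝ) := by
      rw [Finset.sum_congr rfl (g := fun _ => 1 / ((univ.filter (fun l => κ l = κ i)).card : ℝ)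
            * (1 / ((univ.filter (fun l => κ l = κ i)).card : ℝ)))]
      · rw [Finset.sum_const, nsmul_eq_mul]
        field_simp
      · intro l hl
        have := (Finset.mem_filter.mp hl).2
        rw [if_pos (this.trans hk), ← hk]
    rw [e2, ← hk]
    ring
  · simp only [if_neg hk, if_neg (show ¬ κ j = κ i from fun h => hk h.symm)]
    have e2 : ∑ l ∈ univ.filter (fun l => κ l = κ i), (if κ l = κ j then
        1 / ((univ.filter (fun l => κ l = κ i)).card : ℝ)
            * (1 / ((univ.filter (fun l => κ l = κ j)).card : ℝ)) else 0) = 0 := by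
      apply Finset.sum_eq_zero
      intro l hl
      have := (Finset.mem_filter.mp hl).2
      rw [if_neg]
      intro h
      exact hk (this.symm.trans h)
    rw [e2]
    ring

lemma yvec_mem {r : ℕ} (κ : ι → Fin r) (i : ι) : yvec κ i ∈ LinearMap.ker (blockSum κ) := by
  rw [LinearMap.mem_ker]
  ext t
  show ∑ l ∈ univ.filter (fun l => κ l = t), yvec κ i l = 0
  have hcard : ((univ.filter (fun l => κ l = κ i)).card : ℝ) ≠ 0 := by
    have : i ∈ univ.filter (fun l => κ l = κ i) := by simp
    have := Finset.card_pos.mpr ⟨i, this⟩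
    exact_mod_cast this.ne'
  simp_rw [yvec_apply]
  rw [Finset.sum_sub_distrib]
  by_cases ht : κ i = t
  · subst ht
    have e1 : ∑ l ∈ univ.filter (fun l => κ l = κ i), (if l = i then (1:ℝ) else 0) = 1 := by
      rw [Finset.sum_ite_eq']; simp
    have e2 : ∑ l ∈ univ.filter (fun l => κ l = κ i),
        (if κ l = κ i then 1 / ((univ.filter (fun l => κ l = κ i)).card : ℝ) else 0) = 1 := by
      rw [Finset.sum_congr rfl (g := fun _ => 1 / ((univ.filter (fun l => κ l = κ i)).card : ℝ))]
      · rw [Finset.sum_const, nsmul_eq_mul]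
        field_simp
      · intro l hl
        rw [if_pos (Finset.mem_filter.mp hl).2]
    rw [e1, e2, sub_self]
  · have e1 : ∑ l ∈ univ.filter (fun l => κ l = t), (if l = i then (1:ℝ) else 0) = 0 := by
      apply Finset.sum_eq_zero
      intro l hl
      rw [if_neg]
      intro h
      rw [h] at hl
      exact ht (Finset.mem_filter.mp hl).2
    have e2 : ∑ l ∈ univ.filter (fun l => κ l = t),
        (if κ l = κ i then 1 / ((univ.filter (fun l => κ l = κ i)).card : ℝ) else 0) = 0 := by
      apply Finset.sum_eq_zero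
      intro l hl
      rw [if_neg]
      intro h
      exact ht (h.symm.trans (Finset.mem_filter.mp hl).2)
    rw [e1, e2, sub_self]

lemma finrank_ker_blockSum {r : ℕ} (κ : ι → Fin r) (hsurj : Function.Surjective κ) :
    Module.finrank ℝ (LinearMap.ker (blockSum κ)) + r = Fintype.card ι := by
  have h1 := LinearMap.finrank_range_add_finrank_ker (blockSum κ)
  have h2 : LinearMap.range (blockSum κ) = ⊤ := by
    rw [LinearMap.range_eq_top]
    intro f
    choose g hg using hsurj
    refine ⟨WithLp.toLp 2 (fun l => if l = g (κ l) then f (κ l) else 0), ?_⟩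
    ext t
    show ∑ l ∈ univ.filter (fun l => κ l = t), (if l = g (κ l) then f (κ l) else 0) = f t
    rw [Finset.sum_eq_single (g t)]
    · rw [hg t]; simp
    · intro b hb hne
      have hbt := (Finset.mem_filter.mp hb).2
      rw [hbt, if_neg hne]
    · intro hnot
      exact (hnot (by simp [hg t])).elim
  rw [h2, finrank_top] at h1
  have h3 : Module.finrank ℝ (Fin r → ℝ) = r := by simp
  have h4 : Module.finrank ℝ (EuclideanSpace ℝ ι) = Fintype.card ι := finrank_euclideanSpace
  rw [h3, h4] at h1
  omega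

/-- **Existence** of unions of orthogonal simplices. -/
theorem exists_orthSimplices {r d : ℕ} (κ : ι → Fin r)
    (h2 : ∀ t, 2 ≤ (univ.filter (fun l => κ l = t)).card) (hd : d + r = Fintype.card ι) :
    ∃ x : ι → EuclideanSpace ℝ (Fin d), (∀ i, ‖x i‖ = 1) ∧ OrthSimplices x κ := by
  have hsurj : Function.Surjective κ := by
    intro t
    have := h2 t
    obtain ⟨l, hl⟩ := Finset.card_pos.mp (by omega : 0 < (univ.filter (fun l => κ l = t)).card)
    exact ⟨l, (Finset.mem_filter.mp hl).2⟩
  have hfr := finrank_ker_blockSum κ hsurj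
  have hfd : Module.finrank ℝ (LinearMap.ker (blockSum κ)) = d := by omega
  set K := LinearMap.ker (blockSum κ) with hK
  let b : OrthonormalBasis (Fin d) ℝ K := (stdOrthonormalBasis ℝ K).reindex (finCongr hfd)
  set c : ι → ℝ := fun i => 1 / √(1 - 1 / ((univ.filter (fun l => κ l = κ i)).card : ℝ)) with hc
  let x : ι → EuclideanSpace ℝ (Fin d) := fun i => b.repr (c i • (⟨yvec κ i, yvec_mem κ i⟩ : K))
  have hn2 : ∀ i, (2:ℝ) ≤ ((univ.filter (fun l => κ l = κ i)).card : ℝ) := by
    intro i; exact_mod_cast h2 (κ i)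
  have hpos : ∀ i, 0 < 1 - 1 / ((univ.filter (fun l => κ l = κ i)).card : ℝ) := by
    intro i
    have : 1 / ((univ.filter (fun l => κ l = κ i)).card : ℝ) < 1 := by
      rw [div_lt_one (by linarith [hn2 i])]; linarith [hn2 i]
    linarith
  have hcsq : ∀ i, c i * c i * (1 - 1 / ((univ.filter (fun l => κ l = κ i)).card : ℝ)) = 1 := by
    intro i
    rw [hc]
    simp only
    rw [div_mul_div_comm, one_mul, Real.mul_self_sqrt (hpos i).le]
    exact one_div_mul_cancel (hpos i).ne'
  have hinner : ∀ i j, inner ℝ (x i) (x j) = c i * c j * ((if i = j then (1:ℝ) else 0)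
      - (if κ i = κ j then 1 / ((univ.filter (fun l => κ l = κ i)).card : ℝ) else 0)) := by
    intro i j
    have h0 : inner ℝ (x i) (x j) = inner ℝ (c i • (⟨yvec κ i, yvec_mem κ i⟩ : K))
      (c j • (⟨yvec κ j, yvec_mem κ j⟩ : K)) := b.repr.inner_map_map _ _
    rw [h0, Submodule.coe_inner, Submodule.coe_smul, Submodule.coe_smul, real_inner_smul_left,
      real_inner_smul_right]
    show c i * (c j * inner ℝ (yvec κ i) (yvec κ j)) = _
    rw [inner_yvec]
    ring
  refine ⟨x, ?_, ?_⟩
  · intro i
    have h1 := hinner i i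
    rw [if_pos rfl, if_pos rfl, hcsq i, real_inner_self_eq_norm_sq] at h1
    have h3 : 0 ≤ ‖x i‖ := norm_nonneg _
    nlinarith
  · intro i j hij
    rw [hinner i j, if_neg hij]
    by_cases hk : κ i = κ j
    · rw [if_pos hk, if_pos hk]
      have hcij : c j = c i := by rw [hc]; simp only; rw [hk]
      rw [hcij]
      have h5 := hcsq i
      set n : ℝ := ((univ.filter (fun l => κ l = κ i)).card : ℝ) with hn
      have hn0 : 2 ≤ n := hn2 i
      have hn1 : n - 1 ≠ 0 := by linarith
      have hn3 : n ≠ 0 := by linarith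
      have h6 : c i * c i = n / (n - 1) := by
        have h7 : (1 - 1 / n) = (n - 1) / n := by field_simp
        rw [h7] at h5
        calc c i * c i = (c i * c i * ((n - 1) / n)) * (n / (n - 1)) := by field_simp
          _ = n / (n - 1) := by rw [h5, one_mul]
      rw [h6]
      field_simp
      ring
    · rw [if_neg hk, if_neg hk]
      ring

/-- balanced colouring of `Fin N`. -/
lemma balanced_fiber {N r : ℕ} (hr : 0 < r) (t : Fin r) :
    (univ.filter (fun i : Fin N => (⟨i.1 % r, Nat.mod_lt _ hr⟩ : Fin r) = t)).card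
      = N / r + if (t : ℕ) < N % r then 1 else 0 := by
  have h1 := Nat.count_modEq_card (b := N) hr (t : ℕ)
  rw [Nat.mod_eq_of_lt t.2] at h1
  rw [← h1, Nat.count_eq_card_filter_range]
  rw [Finset.card_filter, Finset.card_filter]
  have e : ∀ i : Fin N, (if (⟨i.1 % r, Nat.mod_lt _ hr⟩ : Fin r) = t then 1 else 0)
      = (fun k : ℕ => if k ≡ (t:ℕ) [MOD r] then 1 else 0) i.1 := by
    intro i
    have : ((⟨i.1 % r, Nat.mod_lt _ hr⟩ : Fin r) = t) ↔ (i.1 ≡ (t:ℕ) [MOD r]) := by
      rw [Fin.ext_iff]
      simp only [Nat.ModEq, Nat.mod_eq_of_lt t.2]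
    simp only [this]
  rw [Finset.sum_congr rfl (fun i _ => e i)]
  exact Fin.sum_univ_eq_sum_range (fun k : ℕ => if k ≡ (t:ℕ) [MOD r] then 1 else 0) N

end Pool.Agent.Helper86.DistSum
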