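import Pool.Agent.Helper86.DistSum.Geometry

/-!
From the projection matrix in the equality case to a union of orthogonal simplices.
-/

namespace Pool.Agent.Helper86.DistSum

open Finset

variable {ι : Type*} [Fintype ι] [DecidableEq ι]

omit [DecidableEq ι] in
/-- rows of `P` agree when the off-diagonal entry equals both diagonal entries. -/
lemma ProjData.rows_eq {P : ι → ι → ℝ} (h : ProjData P) {i j : ι} (hjj : P j j = P i i)
    (hij : P i j = P i i) (k : ι) : P i k = P j k := by
  have h1 : ∑ k, (P i k - P j k) ^ 2 = 0 := by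
    have e : ∀ k, (P i k - P j k) ^ 2 = P i k ^ 2 + P j k ^ 2 - 2 * (P i k * P k j) := by
      intro k
      rw [h.symm k j]; ring
    simp_rw [e]
    rw [Finset.sum_sub_distrib, Finset.sum_add_distrib, ← Finset.mul_sum, h.idem, h.sumsq, h.sumsq,
      hjj, hij]
    ring
  have h2 := (Finset.sum_eq_zero_iff_of_nonneg (fun k _ => sq_nonneg (P i k - P j k))).mp h1 k
    (Finset.mem_univ k)
  have := pow_eq_zero_iff (n := 2) (by norm_num) |>.mp h2
  linarith

omit [DecidableEq ι] in
/-- The combinatorial structure. -/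
theorem classify {P : ι → ι → ℝ} (h : ProjData P) {m r : ℕ} (hm : 3 ≤ m)
    (htr : ∑ i, P i i = (r : ℝ))
    (hd : ∀ i, P i i = 1 / (m : ℝ) ∨ P i i = 1 / ((m : ℝ) + 1))
    (hent : ∀ i j, P i j ≠ 0 → P j j = P i i ∧ P i j = P i i) :
    ∃ κ : ι → Fin r, (∀ i j, κ i = κ j ↔ P i j ≠ 0) ∧
      (∀ i, ((univ.filter (fun j => κ j = κ i)).card : ℝ) * P i i = 1) ∧
      (∀ t, (univ.filter (fun j => κ j = t)).card = m ∨
        (univ.filter (fun j => κ j = t)).card = m + 1) := by
  classical
  have hm0 : (0:ℝ) < m := by exact_mod_cast (by omega : 0 < m)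
  have hpos : ∀ i, 0 < P i i := by
    intro i
    rcases hd i with h' | h' <;> rw [h'] <;> positivity
  let S : Setoid ι :=
    { r := fun i j => P i j ≠ 0
      iseqv :=
        { refl := fun i => (hpos i).ne'
          symm := fun {i j} hij => by rw [h.symm]; exact hij
          trans := fun {i j k} hij hjk => by
            obtain ⟨a, b⟩ := hent i j hij
            rw [h.rows_eq a b k]
            exact hjk } }
  have hSr : ∀ i j, S.r i j ↔ P i j ≠ 0 := fun i j => Iff.rfl
  have hmk : ∀ i j, (Quotient.mk S i = Quotient.mk S j) ↔ P i j ≠ 0 := by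
    intro i j
    rw [Quotient.eq]
    exact hSr i j
  -- class size
  have hsize : ∀ i, ((univ.filter (fun j => Quotient.mk S j = Quotient.mk S i)).card : ℝ) * P i i = 1 := by
    intro i
    have h1 := h.sumsq i
    have h2 : ∑ j, P i j ^ 2 = ∑ j, if Quotient.mk S j = Quotient.mk S i then P i i ^ 2 else 0 := by
      apply Finset.sum_congr rfl
      intro j _
      by_cases hj : P i j = 0
      · have : ¬ (Quotient.mk S j = Quotient.mk S i) := by
          rw [hmk, h.symm]; simpa using hj
        rw [if_neg this, hj]; norm_num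
      · have : Quotient.mk S j = Quotient.mk S i := by
          rw [hmk, h.symm]; exact hj
        rw [if_pos this, (hent i j hj).2]
    rw [h2, ← Finset.sum_filter, Finset.sum_const, nsmul_eq_mul] at h1
    have h3 : P i i ≠ 0 := (hpos i).ne'
    have h4 : (((univ.filter (fun j => Quotient.mk S j = Quotient.mk S i)).card : ℝ) * P i i) * P i i
        = 1 * P i i := by rw [one_mul, mul_assoc, ← sq]; exact h1
    exact mul_right_cancel₀ h3 h4
  have hcard : Fintype.card (Quotient S) = r := by
    have h1 : (∑ q : Quotient S, (1:ℝ)) = r := by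
      rw [← htr, ← Finset.sum_fiberwise univ (fun i => Quotient.mk S i) (fun i => P i i)]
      apply Finset.sum_congr rfl
      intro q _
      induction q using Quotient.inductionOn with
      | h i =>
        have h2 : ∀ j ∈ univ.filter (fun j => Quotient.mk S j = Quotient.mk S i), P j j = P i i := by
          intro j hj
          have := (Finset.mem_filter.mp hj).2
          rw [hmk, h.symm] at this
          exact (hent i j this).1
        rw [Finset.sum_congr rfl h2, Finset.sum_const, nsmul_eq_mul]
        exact (hsize i).symm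
    simp at h1
    exact_mod_cast h1
  let e : Quotient S ≃ Fin r := Fintype.equivFinOfCardEq hcard
  have hκ : ∀ i j, (e (Quotient.mk S i) = e (Quotient.mk S j)) ↔ P i j ≠ 0 := by
    intro i j
    rw [e.injective.eq_iff, hmk]
  have hfil : ∀ i, univ.filter (fun j => e (Quotient.mk S j) = e (Quotient.mk S i))
      = univ.filter (fun j => Quotient.mk S j = Quotient.mk S i) := by
    intro i
    apply Finset.filter_congr
    intro j _
    rw [e.injective.eq_iff]
  refine ⟨fun i => e (Quotient.mk S i), hκ, ?_, ?_⟩
  · intro i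
    rw [hfil]
    exact hsize i
  · intro t
    obtain ⟨i, hi⟩ : ∃ i, e (Quotient.mk S i) = t := by
      obtain ⟨i, hi⟩ := Quotient.exists_rep (e.symm t)
      exact ⟨i, by rw [hi]; simp⟩
    rw [← hi, hfil]
    have h1 := hsize i
    rcases hd i with h' | h'
    · left
      rw [h'] at h1
      have : ((univ.filter (fun j => Quotient.mk S j = Quotient.mk S i)).card : ℝ) = m := by
        field_simp at h1
        exact h1
      exact_mod_cast this
    · right
      rw [h'] at h1
      have : ((univ.filter (fun j => Quotient.mk S j = Quotient.mk S i)).card : ℝ) = m + 1 := by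
        field_simp at h1
        exact h1
      exact_mod_cast this

/-- `n² - n √(n(n-1))`: the loss of a simplex with `n` vertices. -/
noncomputable def GG (n : ℕ) : ℝ := (n : ℝ) ^ 2 - n * √((n : ℝ) * (n - 1))

lemma GG_eq {n : ℕ} (hn : 2 ≤ n) : GG n = n / 2 + n / 2 * ee (sm n) := by
  have h2 : (2:ℝ) ≤ n := by exact_mod_cast hn
  have hs := sm_pos hn
  have hsq := sm_sq (m := n) (by omega)
  have h1 : √((n : ℝ) * (n - 1)) = n * sm n := by
    rw [Real.sqrt_eq_iff_mul_self_eq (by nlinarith) (by positivity)]
    have : (n : ℝ) * sm n * (n * sm n) = n ^ 2 * sm n ^ 2 := by ring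
    rw [this, hsq]
    field_simp
  unfold GG ee
  rw [h1]
  have h3 : (1 + sm n) ≠ 0 := by positivity
  have h4 : (n:ℝ) * (1 - sm n ^ 2) = 1 := by
    rw [hsq]; field_simp; ring
  field_simp
  nlinarith [h4]

/-- the target in closed form. -/
lemma target_eq {m r A N : ℕ} (hm : 2 ≤ m) (hN : N = m * r + A) (hA : A ≤ r) :
    (N : ℝ) ^ 2 - (N : ℝ) / 2 - (N * LL m 0 + slope (sm (m + 1)) (sm m) * r) / 2
      = (N : ℝ) ^ 2 - (((r - A : ℕ) : ℝ) * GG m + A * GG (m + 1)) := by
  have h1 : LL m (1 / (m : ℝ)) = ee (sm m) := LL_at_inv hm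
  have h2 : LL m (1 / ((m : ℝ) + 1)) = ee (sm (m + 1)) := LL_at_inv_succ
  rw [LL_affine] at h1 h2
  have hm0 : (0:ℝ) < m := by exact_mod_cast (by omega : 0 < m)
  rw [GG_eq hm, GG_eq (n := m + 1) (by omega), ← h1, ← h2]
  have hcast : ((r - A : ℕ) : ℝ) = (r : ℝ) - A := by rw [Nat.cast_sub hA]
  have hNc : (N : ℝ) = m * r + A := by rw [hN]; push_cast; ring
  rw [hcast, hNc]
  push_cast
  field_simp
  ring

variable {E : Type*} [NormedAddCommGroup E] [InnerProductSpace ℝ E]

/-- `x` is a union of mutually orthogonal regular simplices with colour classes `κ`. -/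
def OrthSimplices {r : ℕ} (x : ι → E) (κ : ι → Fin r) : Prop :=
  ∀ i j, i ≠ j → inner ℝ (x i) (x j) =
    if κ i = κ j then -(1 / (((univ.filter (fun l => κ l = κ i)).card : ℝ) - 1)) else (0:ℝ)

lemma offsum_of_orthSimplices {r : ℕ} {x : ι → E} {κ : ι → Fin r} (h : OrthSimplices x κ)
    (h2 : ∀ t, 2 ≤ (univ.filter (fun l => κ l = t)).card) :
    offsum (fun i j => √(1 - inner ℝ (x i) (x j)))
      = (Fintype.card ι : ℝ) ^ 2 - ∑ t, GG (univ.filter (fun l => κ l = t)).card := by
  have hrow : ∀ i, ∑ j ∈ univ.erase i, √(1 - inner ℝ (x i) (x j))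
      = Fintype.card ι - (univ.filter (fun l => κ l = κ i)).card
        + √(((univ.filter (fun l => κ l = κ i)).card : ℝ)
          * ((univ.filter (fun l => κ l = κ i)).card - 1)) := by
    intro i
    set n : ℝ := ((univ.filter (fun l => κ l = κ i)).card : ℝ) with hn
    have hn2 : 2 ≤ n := by rw [hn]; exact_mod_cast h2 (κ i)
    have e1 : ∀ j ∈ univ.erase i, √(1 - inner ℝ (x i) (x j))
        = 1 + (if κ j = κ i then √(n / (n - 1)) - 1 else 0) := by
      intro j hj
      rw [h i j (Finset.ne_of_mem_erase hj).symm]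
      by_cases hk : κ i = κ j
      · rw [if_pos hk, if_pos hk.symm, ← hn]
        have : 1 - -(1 / (n - 1)) = n / (n - 1) := by
          have : n - 1 ≠ 0 := by linarith
          field_simp
          ring
        rw [this]; ring
      · rw [if_neg hk, if_neg (fun h' => hk h'.symm)]
        simp
    rw [Finset.sum_congr rfl e1, Finset.sum_add_distrib]
    have e2 : ∑ j ∈ univ.erase i, (1:ℝ) = Fintype.card ι - 1 := by
      have := Finset.add_sum_erase univ (fun _ => (1:ℝ)) (Finset.mem_univ i)
      simp only [Finset.sum_const, Finset.card_univ, nsmul_eq_mul, mul_one] at this ⊢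
      linarith
    have e3 : ∑ j ∈ univ.erase i, (if κ j = κ i then √(n / (n - 1)) - 1 else 0)
        = (n - 1) * (√(n / (n - 1)) - 1) := by
      have := Finset.add_sum_erase univ
        (fun j => if κ j = κ i then √(n / (n - 1)) - 1 else (0:ℝ)) (Finset.mem_univ i)
      have full : ∑ j, (if κ j = κ i then √(n / (n - 1)) - 1 else (0:ℝ))
          = n * (√(n / (n - 1)) - 1) := by
        rw [← Finset.sum_filter, Finset.sum_const, nsmul_eq_mul, ← hn]
      rw [full] at this
      simp only [if_true] at this
      linarith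
    rw [e2, e3]
    have e4 : √(n * (n - 1)) = (n - 1) * √(n / (n - 1)) := by
      have hn1 : 0 < n - 1 := by linarith
      rw [Real.sqrt_eq_iff_mul_self_eq (by nlinarith) (by positivity)]
      have h5 : √(n / (n - 1)) * √(n / (n - 1)) = n / (n - 1) :=
        Real.mul_self_sqrt (by positivity)
      symm
      calc (n - 1) * √(n / (n - 1)) * ((n - 1) * √(n / (n - 1)))
          = (n - 1) ^ 2 * (√(n / (n - 1)) * √(n / (n - 1))) := by ring
        _ = n * (n - 1) := by rw [h5]; field_simp
    rw [e4]
    ring
  unfold offsum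
  simp_rw [hrow]
  rw [Finset.sum_add_distrib, Finset.sum_sub_distrib]
  have f1 : ∑ i : ι, (Fintype.card ι : ℝ) = (Fintype.card ι : ℝ) ^ 2 := by
    simp [sq]
  have f2 : ∀ F : ℝ → ℝ, ∑ i, F ((univ.filter (fun l => κ l = κ i)).card : ℝ)
      = ∑ t, ((univ.filter (fun l => κ l = t)).card : ℝ)
          * F ((univ.filter (fun l => κ l = t)).card : ℝ) := by
    intro F
    rw [← Finset.sum_fiberwise univ κ]
    apply Finset.sum_congr rfl
    intro t _
    rw [Finset.sum_congr rfl (g := fun _ => F ((univ.filter (fun l => κ l = t)).card : ℝ))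
      (fun i hi => by rw [(Finset.mem_filter.mp hi).2]), Finset.sum_const, nsmul_eq_mul]
  have f3 := f2 (fun z => z)
  have f4 := f2 (fun z => √(z * (z - 1)))
  rw [f1, f3, f4]
  have f5 : ∑ t, GG (univ.filter (fun l => κ l = t)).card
      = ∑ t, ((univ.filter (fun l => κ l = t)).card : ℝ)
          * ((univ.filter (fun l => κ l = t)).card : ℝ)
        - ∑ t, ((univ.filter (fun l => κ l = t)).card : ℝ)
          * √(((univ.filter (fun l => κ l = t)).card : ℝ)
            * ((univ.filter (fun l => κ l = t)).card - 1)) := by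
    rw [← Finset.sum_sub_distrib]
    apply Finset.sum_congr rfl
    intro t _
    unfold GG
    ring
  rw [f5]
  ring

omit [DecidableEq ι] in
/-- with class sizes `m` and `m+1`. -/
lemma sum_GG_of_sizes {m r : ℕ} (κ : ι → Fin r)
    (h : ∀ t, (univ.filter (fun l => κ l = t)).card = m ∨ (univ.filter (fun l => κ l = t)).card = m + 1) :
    ∃ A : ℕ, A ≤ r ∧ Fintype.card ι = m * r + A ∧
      ∑ t, GG (univ.filter (fun l => κ l = t)).card = ((r - A : ℕ) : ℝ) * GG m + A * GG (m + 1) := by
  set B := univ.filter (fun t : Fin r => (univ.filter (fun l => κ l = t)).card = m + 1) with hB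
  have hBr : B.card ≤ r := by
    have := Finset.card_le_univ B
    simpa using this
  refine ⟨B.card, hBr, ?_, ?_⟩
  · have h1 : Fintype.card ι = ∑ t, (univ.filter (fun l => κ l = t)).card := by
      rw [← Finset.card_univ]
      exact Finset.card_eq_sum_card_fiberwise (fun i _ => Finset.mem_univ (κ i))
    have h2 : ∀ t, (univ.filter (fun l => κ l = t)).card
        = m + (if (univ.filter (fun l => κ l = t)).card = m + 1 then 1 else 0) := by
      intro t
      rcases h t with h' | h'
      · rw [h']; simp
      · rw [h']; simp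
    rw [h1, Finset.sum_congr rfl (fun t _ => h2 t), Finset.sum_add_distrib, ← Finset.sum_filter]
    simp [hB, mul_comm]
  · have h2 : ∀ t, GG (univ.filter (fun l => κ l = t)).card
        = GG m + (if (univ.filter (fun l => κ l = t)).card = m + 1 then GG (m + 1) - GG m else 0) := by
      intro t
      rcases h t with h' | h'
      · rw [h']; simp
      · rw [h']; simp
    rw [Finset.sum_congr rfl (fun t _ => h2 t), Finset.sum_add_distrib, ← Finset.sum_filter]
    rw [Nat.cast_sub hBr]
    simp [hB]
    ring

end Pool.Agent.Helper86.DistSum
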