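import Pool.Agent.Helper86.DistSum.Main

/-!
From projections to unit vectors.
-/

namespace Pool.Agent.Helper86.DistSum

open Finset

variable {ι : Type*} [Fintype ι] [DecidableEq ι]
variable {E : Type*} [NormedAddCommGroup E] [InnerProductSpace ℝ E]

/-- The projection data attached to linear dependencies of unit vectors. -/
lemma projData_of {x : ι → E} (hx : ∀ i, ‖x i‖ = 1) {P : ι → ι → ℝ}
    (h1 : ∀ i j, P i j = P j i) (h2 : ∀ i k, ∑ j, P i j * P j k = P i k)
    (h3 : ∀ i, ∑ j, P i j • x j = 0) (h5 : ∀ i j, P i j ^ 2 ≤ P i i * P j j) : ProjData P := by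
  have hsq : ∀ i, ∑ j, P i j ^ 2 = P i i := by
    intro i
    rw [← h2 i i]
    apply Finset.sum_congr rfl
    intro j _
    rw [h1 j i]; ring
  have hle : ∀ i, P i i ^ 2 ≤ P i i := by
    intro i
    have := Finset.single_le_sum (f := fun j => P i j ^ 2) (fun j _ => sq_nonneg _)
      (Finset.mem_univ i)
    rw [hsq i] at this
    exact this
  refine ⟨h1, h2, h5, ?_⟩
  intro i
  have hle1 : P i i ≤ 1 := by
    by_contra hcon
    push Not at hcon
    nlinarith [hle i]
  refine lt_of_le_of_ne hle1 ?_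
  intro heq
  have hz : ∀ j, j ≠ i → P i j = 0 := by
    intro j hj
    have h6 := Finset.add_sum_erase univ (fun j => P i j ^ 2) (Finset.mem_univ i)
    rw [hsq i] at h6
    simp only [heq] at h6
    have h7 : ∑ j ∈ univ.erase i, P i j ^ 2 = 0 := by linarith
    have h8 := (Finset.sum_eq_zero_iff_of_nonneg (fun j _ => sq_nonneg (P i j))).mp h7 j
      (Finset.mem_erase.mpr ⟨hj, Finset.mem_univ j⟩)
    exact pow_eq_zero_iff (n := 2) (by norm_num) |>.mp h8
  have h9 := h3 i
  rw [← Finset.add_sum_erase univ _ (Finset.mem_univ i), heq, one_smul,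
    Finset.sum_eq_zero (fun j hj => by rw [hz j (Finset.ne_of_mem_erase hj), zero_smul]),
    add_zero] at h9
  have := hx i
  rw [h9, norm_zero] at this
  norm_num at this

lemma LL_affine (m : ℕ) (p : ℝ) : LL m p = LL m 0 + slope (sm (m + 1)) (sm m) * p := by
  unfold LL; ring

/-- the total identity. -/
lemma total_identity {x : ι → E} (hx : ∀ i, ‖x i‖ = 1) {P : ι → ι → ℝ} (h : ProjData P)
    (h3 : ∀ i, ∑ j, P i j • x j = 0) :
    offsum (fun i j => ((1 - nub (h.s i) (h.s j) * P i j) * (1 - inner ℝ (x i) (x j))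
        + 1 / (1 - nub (h.s i) (h.s j) * P i j)) / 2)
      = (Fintype.card ι : ℝ) ^ 2 - (Fintype.card ι : ℝ) / 2 - ‖∑ i, x i‖ ^ 2 / 2
        - (∑ i, ee (h.s i) + offsum (fun i j => P i j ^ 2 * SS (h.s i) (h.s j) (P i j))) / 2 := by
  set N : ℝ := (Fintype.card ι : ℝ) with hN
  -- pointwise expansion
  have e1 : offsum (fun i j => ((1 - nub (h.s i) (h.s j) * P i j) * (1 - inner ℝ (x i) (x j))
        + 1 / (1 - nub (h.s i) (h.s j) * P i j)) / 2)
      = (1 / 2) * offsum (fun i j => ((2 - inner ℝ (x i) (x j))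
          + nub (h.s i) (h.s j) * P i j * inner ℝ (x i) (x j))
          + (P i j ^ 2 * ((ww (h.s i) + ww (h.s j)) / 2)
              - P i j ^ 2 * SS (h.s i) (h.s j) (P i j))) := by
    rw [← offsum_mul]
    apply offsum_congr
    intro i j _
    rw [pair_expand (h.q_lt i j)]
    unfold SS
    ring
  rw [e1, offsum_add, offsum_add, offsum_sub, offsum_sub, offsum_const]
  -- sum of inner products
  have hin : ∑ i, ∑ j, inner ℝ (x i) (x j) = ‖∑ i, x i‖ ^ 2 := by
    rw [← real_inner_self_eq_norm_sq, sum_inner]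
    apply Finset.sum_congr rfl
    intro i _
    rw [inner_sum]
  have hdiag : ∀ i, inner ℝ (x i) (x i) = (1:ℝ) := by
    intro i
    rw [real_inner_self_eq_norm_sq, hx i]; norm_num
  have e2 : offsum (fun i j => inner ℝ (x i) (x j)) = ‖∑ i, x i‖ ^ 2 - N := by
    rw [offsum_eq, hin]
    simp [hx, hN]
  -- the orthogonality
  have hrow : ∀ i, ∑ j, P i j * inner ℝ (x i) (x j) = 0 := by
    intro i
    have := congrArg (fun v => inner ℝ (x i) v) (h3 i)
    simp only [inner_sum, inner_smul_right, inner_zero_right] at this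
    exact this
  have hnu : ∀ i j, nub (h.s i) (h.s j) * P i j * inner ℝ (x i) (x j)
      = 1 / 2 * (1 / (1 + h.s i) * (P i j * inner ℝ (x i) (x j)))
        + 1 / 2 * (1 / (1 + h.s j) * (P j i * inner ℝ (x j) (x i))) := by
    intro i j
    rw [h.symm j i, real_inner_comm (x i) (x j)]
    unfold nub
    ring
  have e3 : offsum (fun i j => nub (h.s i) (h.s j) * P i j * inner ℝ (x i) (x j))
      = - ∑ i, 1 / (1 + h.s i) * P i i := by
    rw [offsum_eq]
    have a1 : ∑ i, ∑ j, nub (h.s i) (h.s j) * P i j * inner ℝ (x i) (x j) = 0 := by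
      simp_rw [hnu, Finset.sum_add_distrib]
      have b1 : ∑ i, ∑ j, 1 / 2 * (1 / (1 + h.s i) * (P i j * inner ℝ (x i) (x j))) = 0 := by
        apply Finset.sum_eq_zero
        intro i _
        rw [← Finset.mul_sum, ← Finset.mul_sum, hrow i]; ring
      have b2 : ∑ i, ∑ j, 1 / 2 * (1 / (1 + h.s j) * (P j i * inner ℝ (x j) (x i))) = 0 := by
        rw [Finset.sum_comm]
        exact b1
      rw [b1, b2]; ring
    rw [a1, zero_sub]
    congr 1
    apply Finset.sum_congr rfl
    intro i _
    rw [hdiag i]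
    unfold nub
    ring
  have e4 : offsum (fun i j => P i j ^ 2 * ((ww (h.s i) + ww (h.s j)) / 2))
      = ∑ i, ww (h.s i) * (P i i - P i i ^ 2) := by
    rw [offsum_eq]
    have a1 : ∑ i, ∑ j, P i j ^ 2 * ((ww (h.s i) + ww (h.s j)) / 2) = ∑ i, ww (h.s i) * P i i := by
      have b0 : ∀ i j, P i j ^ 2 * ((ww (h.s i) + ww (h.s j)) / 2)
          = ww (h.s i) / 2 * P i j ^ 2 + ww (h.s j) / 2 * P j i ^ 2 := by
        intro i j
        rw [h.symm j i]; ring
      simp_rw [b0, Finset.sum_add_distrib]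
      have b1 : ∑ i, ∑ j, ww (h.s i) / 2 * P i j ^ 2 = ∑ i, ww (h.s i) / 2 * P i i := by
        apply Finset.sum_congr rfl
        intro i _
        rw [← Finset.mul_sum, h.sumsq i]
      have b2 : ∑ i, ∑ j, ww (h.s j) / 2 * P j i ^ 2 = ∑ i, ww (h.s i) / 2 * P i i := by
        rw [Finset.sum_comm]
        exact b1
      rw [b1, b2, ← Finset.sum_add_distrib]
      apply Finset.sum_congr rfl
      intro i _
      ring
    rw [a1, ← Finset.sum_sub_distrib]
    apply Finset.sum_congr rfl
    intro i _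
    ring
  have e5 : ∑ i, ee (h.s i) = ∑ i, 1 / (1 + h.s i) * P i i
      - ∑ i, ww (h.s i) * (P i i - P i i ^ 2) := by
    rw [← Finset.sum_sub_distrib]
    apply Finset.sum_congr rfl
    intro i _
    rw [← ee_identity (h.s_pos i), h.s_sq]
  rw [e2, e3, e4, e5]
  ring

/-- **Main upper bound** and equality analysis. -/
theorem main_bound {m r : ℕ} [FiniteDimensional ℝ E] (hm : 3 ≤ m) {x : ι → E}
    (hx : ∀ i, ‖x i‖ = 1)
    (hr : Module.finrank ℝ E + r ≤ Fintype.card ι) :
    offsum (fun i j => √(1 - inner ℝ (x i) (x j)))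
      ≤ (Fintype.card ι : ℝ) ^ 2 - (Fintype.card ι : ℝ) / 2
        - (Fintype.card ι * LL m 0 + slope (sm (m + 1)) (sm m) * r) / 2 ∧
    (offsum (fun i j => √(1 - inner ℝ (x i) (x j)))
      = (Fintype.card ι : ℝ) ^ 2 - (Fintype.card ι : ℝ) / 2
        - (Fintype.card ι * LL m 0 + slope (sm (m + 1)) (sm m) * r) / 2 →
      ∃ P : ι → ι → ℝ, ProjData P ∧ ∑ i, P i i = (r : ℝ) ∧
        (∀ i, P i i = 1 / (m : ℝ) ∨ P i i = 1 / ((m : ℝ) + 1)) ∧
        (∀ i j, P i j ≠ 0 → P j j = P i i ∧ P i j = P i i) ∧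
        (∀ i j, i ≠ j → P i j = 0 → inner ℝ (x i) (x j) = (0:ℝ)) ∧
        (∀ i j, i ≠ j → P i j ≠ 0 → inner ℝ (x i) (x j) = - (P i i / (1 - P i i)))) := by
  obtain ⟨P, h1, h2, h3, h4, h5⟩ := exists_proj x r hr
  have h := projData_of hx h1 h2 h3 h5
  have hg1 : ∀ i j, inner ℝ (x i) (x j) ≤ (1:ℝ) := by
    intro i j
    have := real_inner_le_norm (x i) (x j)
    rw [hx i, hx j] at this
    linarith
  have hq : ∀ i j, 0 < 1 - nub (h.s i) (h.s j) * P i j := fun i j => by linarith [h.q_lt i j]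
  have hstep : ∀ i j, i ≠ j → √(1 - inner ℝ (x i) (x j))
      ≤ ((1 - nub (h.s i) (h.s j) * P i j) * (1 - inner ℝ (x i) (x j))
        + 1 / (1 - nub (h.s i) (h.s j) * P i j)) / 2 := by
    intro i j _
    have := amgm (z := √(1 - inner ℝ (x i) (x j))) (hq i j)
    rw [Real.sq_sqrt (by linarith [hg1 i j])] at this
    exact this
  have hT := total_identity hx h h3
  have hsum : ∑ i, LL m (P i i) = Fintype.card ι * LL m 0 + slope (sm (m + 1)) (sm m) * r := by
    have : ∀ i, LL m (P i i) = LL m 0 + slope (sm (m + 1)) (sm m) * P i i := fun i => LL_affine m _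
    simp_rw [this]
    rw [Finset.sum_add_distrib, ← Finset.mul_sum, h4]
    simp
  have htr := h.transport hm
  rw [hsum] at htr
  have hle := offsum_le hstep
  have hnn : 0 ≤ ‖∑ i, x i‖ ^ 2 := sq_nonneg _
  constructor
  · rw [hT] at hle
    linarith [htr.1]
  · intro heq
    have hE : offsum (fun i j => √(1 - inner ℝ (x i) (x j)))
        = offsum (fun i j => ((1 - nub (h.s i) (h.s j) * P i j) * (1 - inner ℝ (x i) (x j))
        + 1 / (1 - nub (h.s i) (h.s j) * P i j)) / 2) := by
      apply le_antisymm hle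
      rw [hT]
      linarith [htr.1]
    have hpt := offsum_eq_of_le hstep hE
    have htr2 := htr.2 (by rw [hT] at hE; linarith [htr.1])
    refine ⟨P, h, h4, fun i => (htr2 i).1, fun i j => (htr2 i).2 j, ?_, ?_⟩
    · intro i j hij hP0
      have := hpt i j hij
      rw [hP0] at this
      have hz := amgm_eq (q := 1) one_pos (z := √(1 - inner ℝ (x i) (x j))) (by
        rw [Real.sq_sqrt (by linarith [hg1 i j])]
        rw [this]
        ring)
      rw [one_mul] at hz
      have h6 := Real.sq_sqrt (show 0 ≤ 1 - inner ℝ (x i) (x j) by linarith [hg1 i j])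
      rw [hz] at h6
      linarith
    · intro i j hij hP0
      obtain ⟨hjj, hPij⟩ := (htr2 i).2 j hP0
      have hthis := hpt i j hij
      have hz := amgm_eq (hq i j) (z := √(1 - inner ℝ (x i) (x j))) (by
        rw [Real.sq_sqrt (by linarith [hg1 i j])]
        exact hthis)
      have hsj : h.s j = h.s i := by unfold ProjData.s; rw [hjj]
      have hqs : 1 - nub (h.s i) (h.s j) * P i j = h.s i := by
        rw [hPij, hsj, ← h.s_sq i]
        unfold nub
        have : (1 + h.s i) ≠ 0 := by linarith [h.s_pos i]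
        field_simp
        ring
      rw [hqs] at hz
      have h6 := Real.sq_sqrt (show 0 ≤ 1 - inner ℝ (x i) (x j) by linarith [hg1 i j])
      have h7 : h.s i ^ 2 * (1 - inner ℝ (x i) (x j)) = 1 := by
        rw [← h6, ← mul_pow, hz]; norm_num
      have h8 : h.s i ^ 2 = 1 - P i i := by linarith [h.s_sq i]
      rw [h8] at h7
      have h9 : 0 < 1 - P i i := by linarith [h.lt_one i]
      field_simp
      linarith

end Pool.Agent.Helper86.DistSum
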