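import Pool.Agent.Helper86.DistSum.Analysis

/-!
Upper bounds of the second divided difference `E3`.
-/

namespace Pool.Agent.Helper86.DistSum

lemma E3_lt_of {s1 s2 s3 K : ℝ} (h1 : 0 < s1) (h2 : 0 < s2) (h3 : 0 < s3)
    (h : 2 * (1 + s1 + s2 + s3) <
      K * ((1 + s1) * (1 + s2) * (1 + s3) * ((s1 + s2) * (s2 + s3) * (s1 + s3)))) :
    E3 s1 s2 s3 < K := by
  unfold E3
  rw [div_lt_iff₀ (by positivity)]
  exact h

lemma hi3_poly {u : ℝ} (u1 : -0.0236 ≤ u) (u2 : u ≤ 0.0261) :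
    5.3652 + 2 * (0.84 + u) < 3 / 16 * (1.866 * 1.8164 * 1.6824) * ((2 - (0.84 + u) ^ 2) *
          ((1 + (0.84 + u)) * ((0.8164 + (0.84 + u)) * (0.866 + (0.84 + u))))) := by
  have husq : u ^ 2 ≤ 0.0007 := by
    have : 0 ≤ (u + 0.0236) * (0.0261 - u) := mul_nonneg (by linarith) (by linarith)
    nlinarith
  have hu0 : 0 ≤ u ^ 2 := sq_nonneg u
  have e1 : (1 + (0.84 + u)) * ((0.8164 + (0.84 + u)) * (0.866 + (0.84 + u)))
      = 1.84 * 1.6564 * 1.706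
        + (1.84 * 1.6564 + 1.84 * 1.706 + 1.6564 * 1.706) * u
        + u ^ 2 * (5.2024 + u) := by ring
  have e2 : 5.199 + 9.0126 * u ≤ (1 + (0.84 + u)) * ((0.8164 + (0.84 + u)) * (0.866 + (0.84 + u))) := by
    rw [e1]
    have : 0 ≤ u ^ 2 * (5.2024 + u) := mul_nonneg hu0 (by linarith)
    linarith
  have e3 : 1.294 - 1.68 * u - 0.0007 ≤ 2 - (0.84 + u) ^ 2 := by linarith
  have e4 : 0 ≤ 1.294 - 1.68 * u - 0.0007 := by linarith
  have e5 : 0 ≤ 5.199 + 9.0126 * u := by linarith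
  calc 5.3652 + 2 * (0.84 + u)
      < 3 / 16 * (1.866 * 1.8164 * 1.6824) * ((1.294 - 1.68 * u - 0.0007) * (5.199 + 9.0126 * u)) := by
        linarith
    _ ≤ 3 / 16 * (1.866 * 1.8164 * 1.6824) * ((2 - (0.84 + u) ^ 2) *
          ((1 + (0.84 + u)) * ((0.8164 + (0.84 + u)) * (0.866 + (0.84 + u))))) := by
        apply mul_le_mul_of_nonneg_left _ (by norm_num)
        exact mul_le_mul e3 e2 e5 (le_trans e4 e3)

/-- `m = 3`. -/
lemma HI3 {s1 s2 t : ℝ} (h1 : s1 ^ 2 = 3 / 4) (h10 : 0 < s1) (h2 : s2 ^ 2 = 2 / 3) (h20 : 0 < s2)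
    (ht2 : 2 / 3 ≤ t ^ 2) (ht1 : t ^ 2 ≤ 3 / 4) (ht0 : 0 < t) :
    E3 s1 s2 t < 3 / 16 * (2 - t ^ 2) := by
  have a1 : 0.866 ≤ s1 := by
    by_contra hcon; push Not at hcon; nlinarith
  have a2 : s1 ≤ 0.8661 := by
    by_contra hcon; push Not at hcon; nlinarith
  have b1 : 0.8164 ≤ s2 := by
    by_contra hcon; push Not at hcon; nlinarith
  have b2 : s2 ≤ 0.8165 := by
    by_contra hcon; push Not at hcon; nlinarith
  have c1 : 0.8164 ≤ t := by
    by_contra hcon; push Not at hcon; nlinarith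
  have c2 : t ≤ 0.8661 := by
    by_contra hcon; push Not at hcon; nlinarith
  apply E3_lt_of h10 h20 ht0
  have hK : 0 ≤ 3 / 16 * (2 - t ^ 2) := by nlinarith
  have hD : (1.866 * 1.8164 * 1.6824) * ((1 + t) * ((0.8164 + t) * (0.866 + t)))
      ≤ (1 + s1) * (1 + s2) * (1 + t) * ((s1 + s2) * (s2 + t) * (s1 + t)) := by
    calc (1.866 * 1.8164 * 1.6824) * ((1 + t) * ((0.8164 + t) * (0.866 + t)))
        = 1.866 * 1.8164 * (1 + t) * (1.6824 * (0.8164 + t) * (0.866 + t)) := by ring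
      _ ≤ (1 + s1) * (1 + s2) * (1 + t) * ((s1 + s2) * (s2 + t) * (s1 + t)) := by
          gcongr <;> linarith
  have hmul := mul_le_mul_of_nonneg_left hD hK
  refine lt_of_lt_of_le ?_ hmul
  have hL : 2 * (1 + s1 + s2 + t) ≤ 5.3652 + 2 * t := by linarith
  refine lt_of_le_of_lt hL ?_
  have := hi3_poly (u := t - 0.84) (by linarith) (by linarith)
  have ht : (0.84 : ℝ) + (t - 0.84) = t := by ring
  rw [ht] at this
  calc 5.3652 + 2 * t < _ := this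
    _ = _ := by ring

/-- `m = 4`. -/
lemma HI4 {s1 s2 t : ℝ} (h1 : s1 ^ 2 = 4 / 5) (h10 : 0 < s1) (h2 : s2 ^ 2 = 3 / 4) (h20 : 0 < s2)
    (ht2 : 3 / 4 ≤ t ^ 2) (ht0 : 0 < t) :
    E3 s1 s2 t < 5 / 24 := by
  have a1 : 0.8944 ≤ s1 := by
    by_contra hcon; push Not at hcon; nlinarith
  have a2 : s1 ≤ 0.8945 := by
    by_contra hcon; push Not at hcon; nlinarith
  have b1 : 0.866 ≤ s2 := by
    by_contra hcon; push Not at hcon; nlinarith
  have b2 : s2 ≤ 0.8661 := by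
    by_contra hcon; push Not at hcon; nlinarith
  have c1 : 0.866 ≤ t := by
    by_contra hcon; push Not at hcon; nlinarith
  apply E3_lt_of h10 h20 ht0
  have hD : (1.8944 * 1.866 * (1.7604 * 1.732 * 1.7604)) * (1 + t)
      ≤ (1 + s1) * (1 + s2) * (1 + t) * ((s1 + s2) * (s2 + t) * (s1 + t)) := by
    calc (1.8944 * 1.866 * (1.7604 * 1.732 * 1.7604)) * (1 + t)
        = 1.8944 * 1.866 * (1 + t) * (1.7604 * 1.732 * 1.7604) := by ring
      _ ≤ (1 + s1) * (1 + s2) * (1 + t) * ((s1 + s2) * (s2 + t) * (s1 + t)) := by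
          gcongr <;> linarith
  have hmul := mul_le_mul_of_nonneg_left hD (show (0:ℝ) ≤ 5 / 24 by norm_num)
  refine lt_of_lt_of_le ?_ hmul
  linarith

/-- `m ≥ 5`. -/
lemma HI5 {s1 s2 t : ℝ} (h1 : 4 / 5 ≤ s1 ^ 2) (h1' : s1 ≤ 1) (h10 : 0 < s1)
    (h2 : 4 / 5 ≤ s2 ^ 2) (h20 : 0 < s2) (hst : s2 ≤ t) (ht0 : 0 < t) :
    E3 s1 s2 t < 0.2 := by
  have a1 : 0.8944 ≤ s1 := by
    by_contra hcon; push Not at hcon; nlinarith
  have b1 : 0.8944 ≤ s2 := by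
    by_contra hcon; push Not at hcon; nlinarith
  have c1 : 0.8944 ≤ t := by linarith
  apply E3_lt_of h10 h20 ht0
  have hD : (1.8944 * 1.8944 * (1.7888 * 1.7888 * 1.7888)) * (1 + t)
      ≤ (1 + s1) * (1 + s2) * (1 + t) * ((s1 + s2) * (s2 + t) * (s1 + t)) := by
    calc (1.8944 * 1.8944 * (1.7888 * 1.7888 * 1.7888)) * (1 + t)
        = 1.8944 * 1.8944 * (1 + t) * (1.7888 * 1.7888 * 1.7888) := by ring
      _ ≤ (1 + s1) * (1 + s2) * (1 + t) * ((s1 + s2) * (s2 + t) * (s1 + t)) := by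
          gcongr <;> linarith
  have hmul := mul_le_mul_of_nonneg_left hD (show (0:ℝ) ≤ 0.2 by norm_num)
  refine lt_of_lt_of_le ?_ hmul
  linarith

end Pool.Agent.Helper86.DistSum
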