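import Mathlib

/-!
A sum of numbers of `[0,1]` with non-integral total must contain non-integral numbers:
quantitative form for the concave function `c (1-c) (k0 + k1 c)`.
-/

namespace Pool.Agent.Helper86.DistSum

/-- the penalty function. -/
noncomputable def hh (k0 k1 c : ℝ) : ℝ := c * (1 - c) * (k0 + k1 * c)

lemma hh_zero (k0 k1 : ℝ) : hh k0 k1 0 = 0 := by unfold hh; ring
lemma hh_one (k0 k1 : ℝ) : hh k0 k1 1 = 0 := by unfold hh; ring

lemma hh_nonneg {k0 k1 c : ℝ} (h1 : 0 ≤ k1) (h0 : k1 ≤ k0) (hc : 0 ≤ c) (hc1 : c ≤ 1) :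
    0 ≤ hh k0 k1 c := by
  unfold hh
  have : 0 ≤ 1 - c := by linarith
  have : 0 ≤ k0 := by linarith
  positivity

lemma hh_fract_subadd {k0 k1 : ℝ} (h1 : 0 ≤ k1) (h0 : k1 ≤ k0) (x y : ℝ) :
    hh k0 k1 (Int.fract (x + y)) ≤ hh k0 k1 (Int.fract x) + hh k0 k1 (Int.fract y) := by
  set a := Int.fract x with ha
  set b := Int.fract y with hb
  have a0 : 0 ≤ a := Int.fract_nonneg x
  have a1 : a < 1 := Int.fract_lt_one x
  have b0 : 0 ≤ b := Int.fract_nonneg y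
  have b1 : b < 1 := Int.fract_lt_one y
  have hx : x = ⌊x⌋ + a := (Int.floor_add_fract x).symm
  have hy : y = ⌊y⌋ + b := (Int.floor_add_fract y).symm
  rcases lt_or_ge (a + b) 1 with h | h
  · have : Int.fract (x + y) = a + b := by
      rw [Int.fract_eq_iff]
      refine ⟨by positivity, h, ⌊x⌋ + ⌊y⌋, ?_⟩
      push_cast
      linarith
    rw [this]
    unfold hh
    have hab : 0 ≤ a * b := mul_nonneg a0 b0
    have : 0 ≤ (a * b) * (2 * k0 - 2 * k1 + 3 * k1 * (a + b)) := by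
      apply mul_nonneg hab
      have : 0 ≤ 3 * k1 * (a + b) := by positivity
      linarith
    linarith
  · have : Int.fract (x + y) = a + b - 1 := by
      rw [Int.fract_eq_iff]
      refine ⟨by linarith, by linarith, ⌊x⌋ + ⌊y⌋ + 1, ?_⟩
      push_cast
      linarith
    rw [this]
    unfold hh
    have hab : 0 ≤ (1 - a) * (1 - b) := mul_nonneg (by linarith) (by linarith)
    have : 0 ≤ ((1 - a) * (1 - b)) * (2 * k0 + 4 * k1 - 3 * k1 * ((1 - a) + (1 - b))) := by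
      apply mul_nonneg hab
      have : k1 * ((1 - a) + (1 - b)) ≤ k1 * 1 := by
        apply mul_le_mul_of_nonneg_left _ h1
        linarith
      linarith
    linarith

lemma hh_fract_eq {k0 k1 c : ℝ} (hc : 0 ≤ c) (hc1 : c ≤ 1) :
    hh k0 k1 (Int.fract c) = hh k0 k1 c := by
  rcases lt_or_eq_of_le hc1 with h | h
  · rw [Int.fract_eq_self.mpr ⟨hc, h⟩]
  · rw [h, Int.fract_one, hh_zero, hh_one]

/-- integrality lemma. -/
lemma integrality {ι : Type*} (s : Finset ι) (c : ι → ℝ) {k0 k1 : ℝ} (h1 : 0 ≤ k1) (h0 : k1 ≤ k0)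
    (hc : ∀ j ∈ s, 0 ≤ c j ∧ c j ≤ 1) (m : ℕ) {φ : ℝ} (hφ0 : 0 ≤ φ) (hφ1 : φ ≤ 1)
    (hsum : ∑ j ∈ s, c j = m + φ) :
    hh k0 k1 φ ≤ ∑ j ∈ s, hh k0 k1 (c j) := by
  have e1 : ∑ j ∈ s, hh k0 k1 (c j) = ∑ j ∈ s, hh k0 k1 (Int.fract (c j)) := by
    apply Finset.sum_congr rfl
    intro j hj
    rw [hh_fract_eq (hc j hj).1 (hc j hj).2]
  have e2 : hh k0 k1 (Int.fract (∑ j ∈ s, c j)) ≤ ∑ j ∈ s, hh k0 k1 (Int.fract (c j)) := by
    have := Finset.le_sum_of_subadditive (fun x : ℝ => hh k0 k1 (Int.fract x))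
      (by simp [hh_zero]) (fun x y => hh_fract_subadd h1 h0 x y) s c
    exact this
  have e3 : hh k0 k1 (Int.fract (∑ j ∈ s, c j)) = hh k0 k1 φ := by
    rw [hsum, Int.fract_natCast_add, hh_fract_eq hφ0 hφ1]
  rw [e1, ← e3]
  exact e2

end Pool.Agent.Helper86.DistSum
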