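import Mathlib

/-!
Orthogonal projection onto an `r`-dimensional space of linear dependencies of vectors.
-/

namespace Pool.Agent.Helper86.DistSum

open Finset

variable {ι : Type*} [Fintype ι] [DecidableEq ι]
variable {E : Type*} [NormedAddCommGroup E] [InnerProductSpace ℝ E] [FiniteDimensional ℝ E]

/-- synthesis map. -/
noncomputable def synth (x : ι → E) : EuclideanSpace ℝ ι →ₗ[ℝ] E where
  toFun c := ∑ i, c i • x i
  map_add' a b := by simp [add_smul, Finset.sum_add_distrib]
  map_smul' a b := by simp [mul_smul, Finset.smul_sum]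

omit [DecidableEq ι] in
theorem exists_proj (x : ι → E) (r : ℕ) (hr : Module.finrank ℝ E + r ≤ Fintype.card ι) :
    ∃ P : ι → ι → ℝ, (∀ i j, P i j = P j i) ∧ (∀ i k, ∑ j, P i j * P j k = P i k) ∧
      (∀ i, ∑ j, P i j • x j = 0) ∧ ∑ i, P i i = (r : ℝ) ∧
      (∀ i j, P i j ^ 2 ≤ P i i * P j j) := by
  set K := LinearMap.ker (synth x) with hK
  have hdim : r ≤ Module.finrank ℝ K := by
    have h1 : Module.finrank ℝ (LinearMap.range (synth x)) + Module.finrank ℝ K
        = Module.finrank ℝ (EuclideanSpace ℝ ι) := LinearMap.finrank_range_add_finrank_ker (synth x)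
    have h2 : Module.finrank ℝ (EuclideanSpace ℝ ι) = Fintype.card ι := finrank_euclideanSpace
    have h3 : Module.finrank ℝ (LinearMap.range (synth x)) ≤ Module.finrank ℝ E :=
      Submodule.finrank_le _
    rw [h2] at h1
    omega
  set b := stdOrthonormalBasis ℝ K with hb
  set u : Fin r → EuclideanSpace ℝ ι := fun t => (b (Fin.castLE hdim t) : EuclideanSpace ℝ ι) with hu
  have horth : ∀ t s, ∑ j, u t j * u s j = if t = s then (1:ℝ) else 0 := by
    intro t s
    have h1 := (orthonormal_iff_ite.mp b.orthonormal) (Fin.castLE hdim t) (Fin.castLE hdim s)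
    have h2 : inner ℝ (b (Fin.castLE hdim t)) (b (Fin.castLE hdim s)) = inner ℝ (u t) (u s) := rfl
    rw [h2, PiLp.inner_apply] at h1
    have h3 : (Fin.castLE hdim t = Fin.castLE hdim s) ↔ t = s := by
      simp
    simp only [h3] at h1
    rw [← h1]
    apply Finset.sum_congr rfl
    intro j _
    simp [mul_comm]
  have hker : ∀ t, ∑ j, u t j • x j = 0 := by
    intro t
    have : (b (Fin.castLE hdim t) : EuclideanSpace ℝ ι) ∈ LinearMap.ker (synth x) :=
      (b (Fin.castLE hdim t)).2
    exact LinearMap.mem_ker.mp this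
  refine ⟨fun i j => ∑ t, u t i * u t j, ?_, ?_, ?_, ?_, ?_⟩
  · intro i j
    apply Finset.sum_congr rfl
    intro t _
    ring
  · intro i k
    calc ∑ j, (∑ t, u t i * u t j) * (∑ s, u s j * u s k)
        = ∑ t, ∑ s, u t i * u s k * ∑ j, u t j * u s j := by
          simp_rw [Finset.sum_mul_sum, Finset.mul_sum]
          rw [Finset.sum_comm]
          apply Finset.sum_congr rfl
          intro t _
          rw [Finset.sum_comm]
          apply Finset.sum_congr rfl
          intro s _
          apply Finset.sum_congr rfl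
          intro j _
          ring
      _ = ∑ t, u t i * u t k := by
          apply Finset.sum_congr rfl
          intro t _
          simp_rw [horth]
          simp
  · intro i
    calc ∑ j, (∑ t, u t i * u t j) • x j = ∑ t, u t i • ∑ j, u t j • x j := by
          simp_rw [Finset.sum_smul, Finset.smul_sum, smul_smul]
          rw [Finset.sum_comm]
      _ = 0 := by simp [hker]
  · rw [Finset.sum_comm]
    simp_rw [horth]
    simp
  · intro i j
    have := Finset.sum_mul_sq_le_sq_mul_sq univ (fun t => u t i) (fun t => u t j)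
    calc (∑ t, u t i * u t j) ^ 2 ≤ (∑ t, u t i ^ 2) * ∑ t, u t j ^ 2 := this
      _ = (∑ t, u t i * u t i) * ∑ t, u t j * u t j := by simp_rw [sq]

end Pool.Agent.Helper86.DistSum
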