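import Pool.Agent.Helper86.DistSum.Row
import Pool.Agent.Helper86.DistSum.Kernel

/-!
The main inequality for the sum of distances.
-/

namespace Pool.Agent.Helper86.DistSum

open Finset

lemma amgm {q z : ℝ} (hq : 0 < q) : z ≤ (q * z ^ 2 + 1 / q) / 2 := by
  have h : 0 ≤ (q * z - 1) ^ 2 / q := by positivity
  have e : (q * z - 1) ^ 2 / q = q * z ^ 2 + 1 / q - 2 * z := by
    field_simp; ring
  linarith

lemma amgm_eq {q z : ℝ} (hq : 0 < q) (h : z = (q * z ^ 2 + 1 / q) / 2) : q * z = 1 := by
  have e : (q * z - 1) ^ 2 / q = q * z ^ 2 + 1 / q - 2 * z := by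
    field_simp; ring
  have h0 : (q * z - 1) ^ 2 / q = 0 := by linarith
  have h1 : (q * z - 1) ^ 2 = 0 := by
    rcases div_eq_zero_iff.mp h0 with h | h
    · exact h
    · exact absurd h hq.ne'
  have := pow_eq_zero_iff (n := 2) (by norm_num) |>.mp h1
  linarith

lemma pair_expand {y g : ℝ} (hy : y < 1) :
    (1 - y) * (1 - g) + 1 / (1 - y) = 2 - g + y * g + y ^ 2 / (1 - y) := by
  have : (1 - y) ≠ 0 := by linarith
  field_simp
  ring

lemma ee_identity {s : ℝ} (hs : 0 < s) :
    1 / (1 + s) * (1 - s ^ 2) - ww s * ((1 - s ^ 2) - (1 - s ^ 2) ^ 2) = ee s := by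
  unfold ww ee
  have : (1 + s) ≠ 0 := by positivity
  field_simp
  ring

section

variable {ι : Type*} [Fintype ι] [DecidableEq ι]

/-- Sum over ordered pairs of distinct indices. -/
noncomputable def offsum (f : ι → ι → ℝ) : ℝ := ∑ i, ∑ j ∈ univ.erase i, f i j

lemma offsum_eq (f : ι → ι → ℝ) : offsum f = ∑ i, ∑ j, f i j - ∑ i, f i i := by
  unfold offsum
  rw [← Finset.sum_sub_distrib]
  apply Finset.sum_congr rfl
  intro i _
  have := Finset.add_sum_erase univ (f i) (Finset.mem_univ i)
  linarith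

lemma offsum_add (f g : ι → ι → ℝ) :
    offsum (fun i j => f i j + g i j) = offsum f + offsum g := by
  unfold offsum
  simp_rw [Finset.sum_add_distrib]

lemma offsum_sub (f g : ι → ι → ℝ) :
    offsum (fun i j => f i j - g i j) = offsum f - offsum g := by
  unfold offsum
  simp_rw [Finset.sum_sub_distrib]

lemma offsum_mul (c : ℝ) (f : ι → ι → ℝ) :
    offsum (fun i j => c * f i j) = c * offsum f := by
  unfold offsum
  simp_rw [Finset.mul_sum]

lemma offsum_const (c : ℝ) :
    offsum (fun (_ _ : ι) => c) = c * ((Fintype.card ι : ℝ) ^ 2 - Fintype.card ι) := by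
  rw [offsum_eq]
  simp
  ring

lemma offsum_congr {f g : ι → ι → ℝ} (h : ∀ i j, i ≠ j → f i j = g i j) :
    offsum f = offsum g := by
  unfold offsum
  apply Finset.sum_congr rfl
  intro i _
  apply Finset.sum_congr rfl
  intro j hj
  exact h i j (Finset.ne_of_mem_erase hj).symm

lemma offsum_le {f g : ι → ι → ℝ} (h : ∀ i j, i ≠ j → f i j ≤ g i j) :
    offsum f ≤ offsum g := by
  unfold offsum
  apply Finset.sum_le_sum
  intro i _
  apply Finset.sum_le_sum
  intro j hj
  exact h i j (Finset.ne_of_mem_erase hj).symm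

lemma offsum_eq_of_le {f g : ι → ι → ℝ} (h : ∀ i j, i ≠ j → f i j ≤ g i j)
    (he : offsum f = offsum g) : ∀ i j, i ≠ j → f i j = g i j := by
  intro i j hij
  unfold offsum at he
  have h1 : ∀ i ∈ univ, ∑ j ∈ univ.erase i, f i j ≤ ∑ j ∈ univ.erase i, g i j := by
    intro i _
    apply Finset.sum_le_sum
    intro j hj
    exact h i j (Finset.ne_of_mem_erase hj).symm
  have h2 := (Finset.sum_eq_sum_iff_of_le h1).mp he i (Finset.mem_univ i)
  have h3 : ∀ j ∈ univ.erase i, f i j ≤ g i j := by
    intro j hj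
    exact h i j (Finset.ne_of_mem_erase hj).symm
  exact (Finset.sum_eq_sum_iff_of_le h3).mp h2 j (Finset.mem_erase.mpr ⟨hij.symm, Finset.mem_univ j⟩)

/-- algebraic data: a real symmetric idempotent matrix with diagonal in `[0,1)`. -/
structure ProjData (P : ι → ι → ℝ) : Prop where
  symm : ∀ i j, P i j = P j i
  idem : ∀ i k, ∑ j, P i j * P j k = P i k
  cs : ∀ i j, P i j ^ 2 ≤ P i i * P j j
  lt_one : ∀ i, P i i < 1

namespace ProjData

variable {P : ι → ι → ℝ} (h : ProjData P)
include h

omit [DecidableEq ι] in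
lemma sumsq (i : ι) : ∑ j, P i j ^ 2 = P i i := by
  rw [← h.idem i i]
  apply Finset.sum_congr rfl
  intro j _
  rw [h.symm j i]; ring

omit [DecidableEq ι] in
lemma diag_nonneg (i : ι) : 0 ≤ P i i := by
  rw [← h.sumsq i]
  exact Finset.sum_nonneg (fun j _ => sq_nonneg _)

/-- `s i = √(1 - P i i)`. -/
noncomputable def s (_ : ProjData P) (i : ι) : ℝ := √(1 - P i i)

omit [DecidableEq ι] in
lemma s_pos (i : ι) : 0 < h.s i := Real.sqrt_pos.mpr (by linarith [h.lt_one i])

omit [DecidableEq ι] in
lemma s_le (i : ι) : h.s i ≤ 1 := Real.sqrt_le_one.mpr (by linarith [h.diag_nonneg i])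

omit [DecidableEq ι] in
lemma s_sq (i : ι) : 1 - h.s i ^ 2 = P i i := by
  unfold s
  rw [Real.sq_sqrt (by linarith [h.lt_one i])]
  ring

omit [DecidableEq ι] in
lemma abs_le (i j : ι) : |P i j| ≤ ((1 - h.s i ^ 2) + (1 - h.s j ^ 2)) / 2 := by
  rw [h.s_sq, h.s_sq]
  have h1 := h.diag_nonneg i
  have h2 := h.diag_nonneg j
  apply abs_le_of_sq_le_sq _ (by positivity)
  have := h.cs i j
  nlinarith [sq_nonneg (P i i - P j j)]

omit [DecidableEq ι] in
lemma q_lt (i j : ι) : nub (h.s i) (h.s j) * P i j < 1 := by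
  have h1 := nub_p_lt (h.s_pos i) (h.s_le i) (h.s_pos j) (h.s_le j)
  have h2 := (nub_bounds (h.s_pos i) (h.s_le i) (h.s_pos j) (h.s_le j)).1
  have h3 := h.abs_le i j
  have h4 := le_abs_self (P i j)
  have h5 : nub (h.s i) (h.s j) * P i j ≤
      nub (h.s i) (h.s j) * (((1 - h.s i ^ 2) + (1 - h.s j ^ 2)) / 2) :=
    mul_le_mul_of_nonneg_left (by linarith) (by linarith)
  linarith

/-- the row functional. -/
noncomputable def W (m : ℕ) (h : ProjData P) (i : ι) : ℝ :=
  ∑ j, P i j ^ 2 / P j j * (ee (h.s j) - LL m (P j j))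
    + ∑ j ∈ univ.erase i, P i j ^ 2 * SS (h.s i) (h.s j) (P i j)

omit [DecidableEq ι] in
lemma eq_zero_of_diag {i : ι} (hi : P i i = 0) (j : ι) : P i j = 0 := by
  have := h.cs i j
  rw [hi, zero_mul] at this
  exact pow_eq_zero_iff (n := 2) (by norm_num) |>.mp (le_antisymm this (sq_nonneg _))

lemma W_nonneg {m : ℕ} (hm : 3 ≤ m) (i : ι) :
    0 ≤ W m h i ∧ (P i i ≠ 0 → W m h i = 0 →
      (P i i = 1 / (m : ℝ) ∨ P i i = 1 / ((m : ℝ) + 1)) ∧
      (∀ j, P i j ≠ 0 → P j j = P i i ∧ P i j = P i i)) := by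
  by_cases hi : P i i = 0
  · constructor
    · unfold W
      have h0 := h.eq_zero_of_diag hi
      simp [h0]
    · intro h'; exact absurd hi h'
  · have hip : 0 < P i i := lt_of_le_of_ne (h.diag_nonneg i) (Ne.symm hi)
    set c : ι → ℝ := fun j => P i j ^ 2 / (P i i * P j j) with hcdef
    have hPc : ∀ j, P i j ^ 2 = P i i * P j j * c j := by
      intro j
      by_cases hj : P j j = 0
      · have : P i j = 0 := by rw [h.symm]; exact h.eq_zero_of_diag hj i
        rw [this, hj]; simp
      · rw [hcdef]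
        field_simp
    have hc : ∀ j, 0 ≤ c j ∧ c j ≤ 1 := by
      intro j
      have h1 := h.diag_nonneg j
      constructor
      · rw [hcdef]; positivity
      · rw [hcdef]
        apply div_le_one_of_le₀ (h.cs i j) (by positivity)
    have hci : c i = 1 := by
      rw [hcdef]
      simp only
      rw [sq]
      exact div_self (by positivity)
    have hcp : ∀ j, c j * P j j = P i j ^ 2 / P i i := by
      intro j
      rw [hPc j]; field_simp
    have hsum : ∑ j, c j * (1 - h.s j ^ 2) = 1 := by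
      calc ∑ j, c j * (1 - h.s j ^ 2) = ∑ j, P i j ^ 2 / P i i := by
            apply Finset.sum_congr rfl
            intro j _
            rw [h.s_sq, hcp]
        _ = 1 := by
            rw [← Finset.sum_div, h.sumsq i]
            exact div_self hi
    have hrow := row_ineq hm i c h.s (P i) (fun j => ⟨h.s_pos j, h.s_le j⟩) hc hci
      (fun j => by rw [h.s_sq, h.s_sq]; exact hPc j) hsum
    have hW : W m h i = P i i * (∑ j, c j * (ee (h.s j) - LL m (1 - h.s j ^ 2))
        + ∑ j ∈ univ.erase i, c j * (1 - h.s j ^ 2) * SS (h.s i) (h.s j) (P i j)) := by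
      unfold W
      rw [mul_add, Finset.mul_sum, Finset.mul_sum]
      congr 1
      · apply Finset.sum_congr rfl
        intro j _
        rw [h.s_sq]
        by_cases hj : P j j = 0
        · have : P i j = 0 := by rw [h.symm]; exact h.eq_zero_of_diag hj i
          have hc0 : c j = 0 := by rw [hcdef]; simp [hj]
          rw [this, hc0]; simp
        · rw [hPc j]
          field_simp
      · apply Finset.sum_congr rfl
        intro j _
        rw [h.s_sq, hPc j]
        ring
    constructor
    · rw [hW]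
      exact mul_nonneg hip.le hrow.1
    · intro _ hW0
      rw [hW] at hW0
      have h0 := (mul_eq_zero.mp hW0).resolve_left hi
      obtain ⟨r1, r2, r3⟩ := hrow.2 h0
      rw [h.s_sq] at r1
      refine ⟨r1, ?_⟩
      intro j hj
      have hcj : c j ≠ 0 := by
        intro h0
        have := hPc j
        rw [h0, mul_zero] at this
        exact hj (pow_eq_zero_iff (n := 2) (by norm_num) |>.mp this)
      have hsj := r2 j hcj
      have hpj : P j j = P i i := by
        rw [← h.s_sq j, ← h.s_sq i, hsj]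
      refine ⟨hpj, ?_⟩
      by_cases hji : j = i
      · rw [hji]
      · have := r3 j hji hcj
        rw [hsj] at this
        have habs := h.abs_le i j
        rw [hsj] at habs
        have := SS_eq_zero (h.s_pos i) (by linarith) this
        rw [this, h.s_sq]

/-- Transport inequality. -/
lemma transport {m : ℕ} (hm : 3 ≤ m) :
    ∑ i, LL m (P i i) ≤ ∑ i, ee (h.s i) + offsum (fun i j => P i j ^ 2 * SS (h.s i) (h.s j) (P i j)) ∧
    (∑ i, LL m (P i i) = ∑ i, ee (h.s i)
        + offsum (fun i j => P i j ^ 2 * SS (h.s i) (h.s j) (P i j)) →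
      ∀ i, (P i i = 1 / (m : ℝ) ∨ P i i = 1 / ((m : ℝ) + 1)) ∧
        (∀ j, P i j ≠ 0 → P j j = P i i ∧ P i j = P i i)) := by
  have hWsum : ∑ i, W m h i = ∑ j, (if P j j = 0 then 0 else ee (h.s j) - LL m (P j j))
      + offsum (fun i j => P i j ^ 2 * SS (h.s i) (h.s j) (P i j)) := by
    unfold W offsum
    rw [Finset.sum_add_distrib]
    congr 1
    rw [Finset.sum_comm]
    apply Finset.sum_congr rfl
    intro j _
    rw [← Finset.sum_mul, ← Finset.sum_div]
    have : ∑ i, P i j ^ 2 = P j j := by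
      rw [← h.sumsq j]
      apply Finset.sum_congr rfl
      intro i _
      rw [h.symm]
    rw [this]
    split_ifs with h0
    · rw [h0]; simp
    · rw [div_self h0, one_mul]
  have hterm : ∀ j, (if P j j = 0 then 0 else ee (h.s j) - LL m (P j j))
      ≤ ee (h.s j) - LL m (P j j) ∧
      ((if P j j = 0 then 0 else ee (h.s j) - LL m (P j j)) = ee (h.s j) - LL m (P j j) →
        P j j ≠ 0) := by
    intro j
    split_ifs with h0
    · have hs1 : h.s j = 1 := by
        unfold ProjData.s; rw [h0]; simp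
      have he : ee (h.s j) = 0 := by rw [hs1]; unfold ee; norm_num
      have hL := LL_zero_neg (m := m) (by omega)
      rw [he, h0]
      constructor
      · linarith
      · intro h'; linarith
    · exact ⟨le_refl _, fun _ => h0⟩
  have hWn : 0 ≤ ∑ i, W m h i := Finset.sum_nonneg (fun i _ => (h.W_nonneg hm i).1)
  have hle : ∑ j, (if P j j = 0 then 0 else ee (h.s j) - LL m (P j j))
      ≤ ∑ j, (ee (h.s j) - LL m (P j j)) := Finset.sum_le_sum (fun j _ => (hterm j).1)
  have hsub : ∑ j, (ee (h.s j) - LL m (P j j)) = ∑ i, ee (h.s i) - ∑ i, LL m (P i i) :=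
    Finset.sum_sub_distrib _ _
  constructor
  · linarith
  · intro heq i
    have h1 : ∑ i, W m h i = 0 := by linarith
    have h2 : ∑ j, (if P j j = 0 then 0 else ee (h.s j) - LL m (P j j))
      = ∑ j, (ee (h.s j) - LL m (P j j)) := by linarith
    have h3 := (Finset.sum_eq_sum_iff_of_le (fun j _ => (hterm j).1)).mp h2 i (Finset.mem_univ i)
    have h4 := (hterm i).2 h3
    have h5 := (Finset.sum_eq_zero_iff_of_nonneg (fun i _ => (h.W_nonneg hm i).1)).mp h1 i
      (Finset.mem_univ i)
    exact (h.W_nonneg hm i).2 h4 h5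

end ProjData

end

end Pool.Agent.Helper86.DistSum
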