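import Pool.Agent.Helper86.DistSum.Sav

/-!
Pair inequalities.
-/

namespace Pool.Agent.Helper86.DistSum

/-- pair inequality used for clusters of size at least `4`. -/
lemma PI4 {s1 s2 t P c : ℝ} (h1 : 0 < s1) (h1' : s1 ≤ 1) (h2 : 0 < s2) (h2' : s2 ≤ 1)
    (ht : 0 < t) (ht1 : t ≤ 1) (hc0 : 0 ≤ c) (hc1 : c ≤ 1)
    (hP : P ^ 2 = (1 - s1 ^ 2) * (1 - s2 ^ 2) * c) :
    (1 - t ^ 2) ^ 2 * (1 - c) * (1 / 24 + c / 72) ≤ (1 - s2 ^ 2) * SS s1 s2 P + DD s2 t := by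
  have hx : 0 ≤ 1 - s1 ^ 2 := by nlinarith
  have hy : 0 ≤ 1 - s2 ^ 2 := by nlinarith
  set x := 1 - s1 ^ 2 with hxd
  set y := 1 - s2 ^ 2 with hyd
  have habs : |P| ≤ (x + y * c) / 2 := by
    apply abs_le_of_sq_le_sq _ (by positivity)
    rw [hP]
    nlinarith [sq_nonneg (x - y * c)]
  have habs2 : |P| ≤ (x + y) / 2 := by nlinarith
  have hSS := SS_lower h1 h1' h2 h2' habs2
  rw [← hxd, ← hyd] at hSS
  have hP0 : 0 ≤ |P| := abs_nonneg P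
  have hSS2 : 1 / 8 * (y * (1 - c) / 2) ≤ SS s1 s2 P := by
    refine le_trans ?_ hSS
    have e1 : y * (1 - c) / 2 ≤ (x + y) / 2 - |P| := by linarith
    have e2 : 0 ≤ (x + y) / 2 - |P| := by linarith
    have e3 : 0 ≤ (5 / 4 * ((x + y) / 2) + 1 / 2 * |P|) * ((x + y) / 2 - |P|) := by positivity
    nlinarith
  have hDD : 1 / 8 * (t ^ 2 - s2 ^ 2) ^ 2 ≤ DD s2 t := by
    apply DD_lower h2 h2' ht (by norm_num)
    have : t * (1 + t) ^ 3 ≤ 1 * (1 + 1) ^ 3 := by gcongr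
    linarith
  have hyt : t ^ 2 - s2 ^ 2 = y - (1 - t ^ 2) := by rw [hyd]; ring
  rw [hyt] at hDD
  set a := 1 - t ^ 2 with had
  have hmul : y * (1 / 8 * (y * (1 - c) / 2)) ≤ y * SS s1 s2 P :=
    mul_le_mul_of_nonneg_left hSS2 hy
  have hkey : a ^ 2 * (1 - c) * (1 / 24 + c / 72)
      ≤ y * (1 / 8 * (y * (1 - c) / 2)) + 1 / 8 * (y - a) ^ 2 := by
    -- (3-c) y^2 - 4 a y + 2 a^2 ≥ ...
    have h3c : 0 < 3 - c := by linarith
    have e1 : a ^ 2 * (1 - c) * (1 / 24 + c / 72) ≤ a ^ 2 * (1 - c) / (8 * (3 - c)) := by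
      rw [le_div_iff₀ (by positivity)]
      have : 0 ≤ a ^ 2 * (1 - c) := by
        apply mul_nonneg (sq_nonneg _); linarith
      nlinarith [mul_nonneg this (sq_nonneg c)]
    have e2 : a ^ 2 * (1 - c) / (8 * (3 - c))
        ≤ y * (1 / 8 * (y * (1 - c) / 2)) + 1 / 8 * (y - a) ^ 2 := by
      rw [div_le_iff₀ (by positivity)]
      nlinarith [sq_nonneg ((3 - c) * y - 2 * a)]
    linarith
  linarith

/-- the polynomial inequality behind `PI3`. -/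
lemma pi3_poly {w h x : ℝ} (hw0 : 0 ≤ w) (hw1 : w ≤ 1) :
    0 ≤ (w / 8) * ((15 / 8 - w / 4) * ((1 - h) * (1 - (h + x) / 2)) - (7 / 16 - w / 8) * (1 - h))
      + (7 / 40) * (h ^ 2 + x ^ 2 / 3) - w * (2 - w) * (1 / 16 + (1 - w) ^ 2 / 64) := by
  set C2 : ℝ := 7 / 40 + 15 / 128 * w - 4271 / 57344 * w ^ 2 + 225 / 14336 * w ^ 3
    - 15 / 14336 * w ^ 4 with hC2
  set b : ℝ := 19 / 64 - 4271 / 28672 * w + 225 / 7168 * w ^ 2 - 15 / 7168 * w ^ 3 with hb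
  set c0 : ℝ := 3 / 128 + 3793 / 57344 * w - 671 / 14336 * w ^ 2 + 209 / 14336 * w ^ 3 with hc0
  have hid : (w / 8) * ((15 / 8 - w / 4) * ((1 - h) * (1 - (h + x) / 2))
        - (7 / 16 - w / 8) * (1 - h))
      + (7 / 40) * (h ^ 2 + x ^ 2 / 3) - w * (2 - w) * (1 / 16 + (1 - w) ^ 2 / 64)
      = 7 / 120 * (x - 15 / 28 * w * (15 / 8 - w / 4) * (1 - h)) ^ 2
        + (C2 * h ^ 2 - w * b * h + w * c0) := by
    rw [hC2, hb, hc0]; ring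
  rw [hid]
  have w2 : w ^ 2 ≤ w := by
    have := pow_le_pow_of_le_one hw0 hw1 (show 1 ≤ 2 by norm_num)
    simpa using this
  have w3 : w ^ 3 ≤ w ^ 2 := pow_le_pow_of_le_one hw0 hw1 (by norm_num)
  have w4 : w ^ 4 ≤ w ^ 3 := pow_le_pow_of_le_one hw0 hw1 (by norm_num)
  have hw2 : 0 ≤ w ^ 2 := sq_nonneg w
  have hw3 : 0 ≤ w ^ 3 := pow_nonneg hw0 3
  have hw4 : 0 ≤ w ^ 4 := pow_nonneg hw0 4
  have hC2pos : 0 < C2 := by rw [hC2]; linarith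
  have hdisc : 0 ≤ 4 * C2 * c0 - w * b ^ 2 := by
    have hexp : 4 * C2 * c0 - w * b ^ 2
        = 21/1280 - 2527/81920 * w + 182823/2293760 * w^2 - 46397/655360 * w^3
          + 4063/114688 * w^4 - 8411/917504 * w^5 + 285/229376 * w^6 - 15/229376 * w^7 := by
      rw [hC2, hb, hc0]; ring
    rw [hexp]
    have hw5 : w ^ 5 ≤ w ^ 4 := pow_le_pow_of_le_one hw0 hw1 (by norm_num)
    have hw7 : w ^ 7 ≤ w ^ 6 := pow_le_pow_of_le_one hw0 hw1 (by norm_num)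
    have hw6 : 0 ≤ w ^ 6 := pow_nonneg hw0 6
    have base : 0 ≤ 21/1280 - 2527/81920 * w + 182823/2293760 * w^2 - 46397/655360 * w^3
          + (4063/114688 - 8411/917504) * w^4 := by
      have q1 : 0 ≤ w ^ 2 * (w - 3 / 10) ^ 2 := by positivity
      have q2 : 0 ≤ w ^ 2 * (1 - w) := mul_nonneg hw2 (sub_nonneg.mpr hw1)
      have q3 : 0 ≤ (w - 7 / 10) ^ 2 := by positivity
      linarith
    linarith
  have h4 : 0 ≤ 4 * C2 * (C2 * h ^ 2 - w * b * h + w * c0) := by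
    have : 4 * C2 * (C2 * h ^ 2 - w * b * h + w * c0)
        = (2 * C2 * h - w * b) ^ 2 + w * (4 * C2 * c0 - w * b ^ 2) := by ring
    rw [this]
    have := mul_nonneg hw0 hdisc
    positivity
  have h5 : 0 ≤ C2 * h ^ 2 - w * b * h + w * c0 := by
    have h6 : 0 < 4 * C2 := by positivity
    exact nonneg_of_mul_nonneg_right h4 h6
  have h7 : 0 ≤ 7 / 120 * (x - 15 / 28 * w * (15 / 8 - w / 4) * (1 - h)) ^ 2 := by positivity
  linarith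

/-- pair inequality used for clusters of size `3`. -/
lemma PI3 {s1 s2 t P c : ℝ} (h1 : 0 < s1) (h1' : s1 ≤ 1) (h2 : 0 < s2) (h2' : s2 ≤ 1)
    (ht : 0 < t) (ht1 : t ^ 2 ≤ 3 / 4) (hc0 : 0 ≤ c) (hc1 : c ≤ 1)
    (hP : P ^ 2 = (1 - s1 ^ 2) * (1 - s2 ^ 2) * c) :
    (1 - t ^ 2) ^ 2 * (1 - c) * (1 / 16 + c / 64)
      ≤ (1 - s2 ^ 2) * SS s1 s2 P + DD s2 t + 1 / 3 * DD s1 t := by
  have hx : 0 ≤ 1 - s1 ^ 2 := by nlinarith
  have hy : 0 ≤ 1 - s2 ^ 2 := by nlinarith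
  set x := 1 - s1 ^ 2 with hxd
  set y := 1 - s2 ^ 2 with hyd
  obtain ⟨g, hg0, hg1, hgc⟩ : ∃ g : ℝ, 0 ≤ g ∧ g ≤ 1 ∧ c = g ^ 2 :=
    ⟨√c, Real.sqrt_nonneg c, Real.sqrt_le_one.mpr hc1, (Real.sq_sqrt hc0).symm⟩
  set p := (x + y) / 2 with hpd
  have hp0 : 0 ≤ p := by positivity
  have habs : |P| ≤ g * p := by
    apply abs_le_of_sq_le_sq _ (by positivity)
    rw [hP, hgc, hpd]
    have : 0 ≤ g ^ 2 * (x - y) ^ 2 := by positivity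
    nlinarith
  have habs2 : |P| ≤ p := by nlinarith
  have hSS := SS_lower h1 h1' h2 h2' habs2
  rw [← hxd, ← hyd, ← hpd] at hSS
  have hP0 : 0 ≤ |P| := abs_nonneg P
  have hSS2 : 1 / 8 * ((1 - g) * p) * (1 + 5 / 4 * p + 1 / 2 * (g * p)) ≤ SS s1 s2 P := by
    refine le_trans ?_ hSS
    have e1 : 0 ≤ (g * p - |P|) * (1 + 7 / 4 * p - 1 / 2 * ((p - |P|) + (1 - g) * p)) := by
      apply mul_nonneg (by linarith)
      have : (1 - g) * p ≤ p := by nlinarith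
      nlinarith
    nlinarith
  have hDDc : 7 / 40 * (t * (1 + t) ^ 3) ≤ 1 := by
    have ht2 : t ≤ 0.8661 := by
      by_contra hcon
      push Not at hcon
      nlinarith
    have : t * (1 + t) ^ 3 ≤ 0.8661 * (1 + 0.8661) ^ 3 := by gcongr
    norm_num at this ⊢
    linarith
  have hD2 : 7 / 40 * (t ^ 2 - s2 ^ 2) ^ 2 ≤ DD s2 t := DD_lower h2 h2' ht (by norm_num) hDDc
  have hD1 : 7 / 40 * (t ^ 2 - s1 ^ 2) ^ 2 ≤ DD s1 t := DD_lower h1 h1' ht (by norm_num) hDDc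
  have hyt : t ^ 2 - s2 ^ 2 = y - (1 - t ^ 2) := by rw [hyd]; ring
  have hxt : t ^ 2 - s1 ^ 2 = x - (1 - t ^ 2) := by rw [hxd]; ring
  rw [hyt] at hD2
  rw [hxt] at hD1
  set a := 1 - t ^ 2 with had
  have ha : 1 / 4 ≤ a := by linarith
  have ha0 : 0 < a := by linarith
  obtain ⟨X, hX⟩ : ∃ X, x = a * X := ⟨x / a, by field_simp⟩
  obtain ⟨Y, hY⟩ : ∃ Y, y = a * Y := ⟨y / a, by field_simp⟩
  have hX0 : 0 ≤ X := by
    rw [hX] at hx; exact nonneg_of_mul_nonneg_right hx ha0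
  have hY0 : 0 ≤ Y := by
    rw [hY] at hy; exact nonneg_of_mul_nonneg_right hy ha0
  set M := (X + Y) / 2 with hM
  have hM0 : 0 ≤ M := by positivity
  have hpM : p = a * M := by rw [hpd, hM, hX, hY]; ring
  have hmul := mul_le_mul_of_nonneg_left hSS2 hy
  have hlow : a ^ 2 * (1 / 8 * (1 - g) * Y * M * (1 + 5 / 16 * M + 1 / 8 * g * M))
      ≤ y * (1 / 8 * ((1 - g) * p) * (1 + 5 / 4 * p + 1 / 2 * (g * p))) := by
    rw [hpM, hY]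
    have e1 : 1 + 5 / 16 * M + 1 / 8 * g * M ≤ 1 + 5 / 4 * (a * M) + 1 / 2 * (g * (a * M)) := by
      have : 1 / 4 * M ≤ a * M := mul_le_mul_of_nonneg_right ha hM0
      have h2 : g * (1 / 4 * M) ≤ g * (a * M) := mul_le_mul_of_nonneg_left this hg0
      linarith
    have e2 : 0 ≤ a ^ 2 * (1 / 8 * (1 - g) * Y * M) := by
      have : 0 ≤ 1 - g := by linarith
      positivity
    calc a ^ 2 * (1 / 8 * (1 - g) * Y * M * (1 + 5 / 16 * M + 1 / 8 * g * M))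
        = (a ^ 2 * (1 / 8 * (1 - g) * Y * M)) * (1 + 5 / 16 * M + 1 / 8 * g * M) := by ring
      _ ≤ (a ^ 2 * (1 / 8 * (1 - g) * Y * M)) * (1 + 5 / 4 * (a * M) + 1 / 2 * (g * (a * M))) :=
          mul_le_mul_of_nonneg_left e1 e2
      _ = a * Y * (1 / 8 * ((1 - g) * (a * M)) * (1 + 5 / 4 * (a * M) + 1 / 2 * (g * (a * M)))) := by
          ring
  have hpoly := pi3_poly (w := 1 - g) (h := 1 - Y) (x := 1 - X) (by linarith) (by linarith)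
  -- relate: Y M^2 ≥ Y (2M - 1)
  have hYM : 0 ≤ (1 / 8 * (1 - g) * (5 / 16 + 1 / 8 * g)) * (Y * (M - 1) ^ 2) := by
    have : 0 ≤ 1 - g := by linarith
    positivity
  have hbig : (1 - g ^ 2) * (1 / 16 + g ^ 2 / 64)
      ≤ 1 / 8 * (1 - g) * Y * M * (1 + 5 / 16 * M + 1 / 8 * g * M)
        + 7 / 40 * ((Y - 1) ^ 2 + (X - 1) ^ 2 / 3) := by
    have hid : 1 / 8 * (1 - g) * Y * M * (1 + 5 / 16 * M + 1 / 8 * g * M)
        + 7 / 40 * ((Y - 1) ^ 2 + (X - 1) ^ 2 / 3) - (1 - g ^ 2) * (1 / 16 + g ^ 2 / 64)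
        = ((1 - g) / 8) * ((15 / 8 - (1 - g) / 4) * ((1 - (1 - Y)) * (1 - ((1 - Y) + (1 - X)) / 2))
            - (7 / 16 - (1 - g) / 8) * (1 - (1 - Y)))
          + (7 / 40) * ((1 - Y) ^ 2 + (1 - X) ^ 2 / 3)
          - (1 - g) * (2 - (1 - g)) * (1 / 16 + (1 - (1 - g)) ^ 2 / 64)
          + (1 / 8 * (1 - g) * (5 / 16 + 1 / 8 * g)) * (Y * (M - 1) ^ 2) := by
      rw [hM]; ring
    linarith
  have hfinal : a ^ 2 * ((1 - g ^ 2) * (1 / 16 + g ^ 2 / 64))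
      ≤ a ^ 2 * (1 / 8 * (1 - g) * Y * M * (1 + 5 / 16 * M + 1 / 8 * g * M)
        + 7 / 40 * ((Y - 1) ^ 2 + (X - 1) ^ 2 / 3)) :=
    mul_le_mul_of_nonneg_left hbig (sq_nonneg a)
  have hsq2 : 7 / 40 * (y - a) ^ 2 = a ^ 2 * (7 / 40 * (Y - 1) ^ 2) := by rw [hY]; ring
  have hsq1 : 7 / 40 * (x - a) ^ 2 = a ^ 2 * (7 / 40 * (X - 1) ^ 2) := by rw [hX]; ring
  rw [hsq2] at hD2
  rw [hsq1] at hD1
  rw [hgc]
  calc a ^ 2 * (1 - g ^ 2) * (1 / 16 + g ^ 2 / 64)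
      = a ^ 2 * ((1 - g ^ 2) * (1 / 16 + g ^ 2 / 64)) := by ring
    _ ≤ _ := hfinal
    _ = a ^ 2 * (1 / 8 * (1 - g) * Y * M * (1 + 5 / 16 * M + 1 / 8 * g * M))
        + a ^ 2 * (7 / 40 * (Y - 1) ^ 2) + 1 / 3 * (a ^ 2 * (7 / 40 * (X - 1) ^ 2)) := by ring
    _ ≤ y * SS s1 s2 P + DD s2 t + 1 / 3 * DD s1 t := by linarith

end Pool.Agent.Helper86.DistSum
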