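import Pool.Agent.Helper86.DistSum.PairIneq
import Pool.Agent.Helper86.DistSum.Integrality
import Pool.Agent.Helper86.DistSum.HI

/-!
The row inequality.
-/

namespace Pool.Agent.Helper86.DistSum

open Finset

/-- `√(1 - 1/m)`. -/
noncomputable def sm (m : ℕ) : ℝ := √(1 - 1 / (m : ℝ))

lemma sm_sq {m : ℕ} (hm : 1 ≤ m) : sm m ^ 2 = 1 - 1 / (m : ℝ) := by
  unfold sm
  rw [Real.sq_sqrt]
  have : (1:ℝ) ≤ m := by exact_mod_cast hm
  have : 1 / (m:ℝ) ≤ 1 := by
    rw [div_le_one (by positivity)]; exact this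
  linarith

lemma sm_pos {m : ℕ} (hm : 2 ≤ m) : 0 < sm m := by
  unfold sm
  apply Real.sqrt_pos.mpr
  have : (2:ℝ) ≤ m := by exact_mod_cast hm
  have : 1 / (m:ℝ) < 1 := by
    rw [div_lt_one (by positivity)]; linarith
  linarith

lemma sm_le_one {m : ℕ} : sm m ≤ 1 := by
  unfold sm
  apply Real.sqrt_le_one.mpr
  have : 0 ≤ 1 / (m:ℝ) := by positivity
  linarith

/-- the chord of `e` through `1/(m+1)` and `1/m`. -/
noncomputable def LL (m : ℕ) (p : ℝ) : ℝ :=
  ee (sm (m + 1)) + slope (sm (m + 1)) (sm m) * (p - 1 / ((m : ℝ) + 1))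

lemma LL_sub {m : ℕ} (hm : 2 ≤ m) {t : ℝ} (ht : 0 < t) :
    LL m (1 - t ^ 2) - ee t
      = (sm (m + 1) ^ 2 - t ^ 2) * (t ^ 2 - sm m ^ 2) * E3 (sm (m + 1)) (sm m) t := by
  have h1 : 0 < sm (m + 1) := sm_pos (by omega)
  have h2 : 0 < sm m := sm_pos hm
  rw [← chord_id h1 h2 ht]
  unfold LL
  have : sm (m + 1) ^ 2 = 1 - 1 / ((m : ℝ) + 1) := by
    rw [sm_sq (by omega)]; push_cast; ring
  rw [this]
  ring

lemma LL_at_inv {m : ℕ} (hm : 2 ≤ m) : LL m (1 / (m : ℝ)) = ee (sm m) := by
  have h2 : 0 < sm m := sm_pos hm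
  have := LL_sub hm h2
  have e : 1 - sm m ^ 2 = 1 / (m : ℝ) := by rw [sm_sq (by omega)]; ring
  rw [e] at this
  linarith

lemma LL_at_inv_succ {m : ℕ} : LL m (1 / ((m : ℝ) + 1)) = ee (sm (m + 1)) := by
  unfold LL; ring

/-- intercept of the chord is negative. -/
lemma LL_zero_neg {m : ℕ} (hm : 2 ≤ m) : LL m 0 < 0 := by
  have := LL_sub hm (t := 1) one_pos
  have h1 : 0 < sm (m + 1) := sm_pos (by omega)
  have h2 : 0 < sm m := sm_pos hm
  have e0 : ee 1 = 0 := by unfold ee; norm_num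
  have e1 : (1:ℝ) - 1 ^ 2 = 0 := by norm_num
  rw [e0, e1, sub_zero] at this
  rw [this]
  have hE := E3_pos h1 h2 one_pos
  have hm0 : (0:ℝ) < m := by exact_mod_cast (by omega : 0 < m)
  have a1 : sm (m + 1) ^ 2 < 1 := by
    rw [sm_sq (by omega)]
    have : 0 < 1 / (((m + 1 : ℕ)) : ℝ) := by positivity
    linarith
  have a2 : sm m ^ 2 < 1 := by
    rw [sm_sq (by omega)]
    have : 0 < 1 / (m : ℝ) := by positivity
    linarith
  have : (sm (m + 1) ^ 2 - 1 ^ 2) * (1 ^ 2 - sm m ^ 2) < 0 :=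
    mul_neg_of_neg_of_pos (by linarith) (by linarith)
  exact mul_neg_of_neg_of_pos this hE

section row

variable {ι : Type*} [Fintype ι] [DecidableEq ι]

omit [DecidableEq ι] in
/-- exact identity for the transported part of the row. -/
lemma row_identity {m : ℕ} (c s : ι → ℝ) {n t : ℝ} (hn : ∑ j, c j = n) (hn0 : n ≠ 0)
    (hsum : ∑ j, c j * (1 - s j ^ 2) = 1) (ht : 1 - t ^ 2 = 1 / n) :
    ∑ j, c j * (ee (s j) - LL m (1 - s j ^ 2))
      = ∑ j, c j * DD (s j) t - n * (LL m (1 - t ^ 2) - ee t) := by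
  have h1 : ∀ j, c j * (ee (s j) - LL m (1 - s j ^ 2))
      = c j * DD (s j) t + c j * (ee t - ee (sm (m + 1))
          + slope (sm (m + 1)) (sm m) * (1 / ((m : ℝ) + 1)) + ww t * (t ^ 2 - 1))
        + c j * (1 - s j ^ 2) * (ww t - slope (sm (m + 1)) (sm m)) := by
    intro j
    unfold DD LL
    ring
  rw [Finset.sum_congr rfl (fun j _ => h1 j), Finset.sum_add_distrib, Finset.sum_add_distrib,
    ← Finset.sum_mul, ← Finset.sum_mul, hn, hsum]
  have h2 : t ^ 2 - 1 = - (1 / n) := by linarith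
  rw [h2, ht]
  unfold LL
  field_simp
  ring

/-- abstract positivity in the non-integral case. -/
lemma row_core {m : ℕ} (hm : 2 ≤ m) (i : ι) (c s S : ι → ℝ) {n t k0 k1 lam : ℝ}
    (hk1 : 0 ≤ k1) (hk0 : k1 ≤ k0) (hlam : 0 ≤ lam) (hlam1 : lam * m ≤ 1)
    (hs : ∀ j, 0 < s j)
    (hc : ∀ j, 0 ≤ c j ∧ c j ≤ 1) (hci : c i = 1)
    (hn : ∑ j, c j = n) (hnm : (m : ℝ) < n) (hnm1 : n < (m : ℝ) + 1)
    (hsum : ∑ j, c j * (1 - s j ^ 2) = 1) (ht0 : 0 < t) (ht : 1 - t ^ 2 = 1 / n)
    (hHI : E3 (sm (m + 1)) (sm m) t * n < (k0 + k1 * (n - m)) * (m * (m + 1)))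
    (hPI : ∀ j, j ≠ i → (1 - t ^ 2) ^ 2 * (1 - c j) * (k0 + k1 * c j)
      ≤ (1 - s j ^ 2) * S j + DD (s j) t + lam * DD (s i) t) :
    0 < ∑ j, c j * (ee (s j) - LL m (1 - s j ^ 2))
      + ∑ j ∈ univ.erase i, c j * (1 - s j ^ 2) * S j := by
  have hm0 : (0:ℝ) < m := by exact_mod_cast (by omega : 0 < m)
  have hn0 : 0 < n := by linarith
  rw [row_identity c s hn hn0.ne' hsum ht]
  have hsplit : ∑ j, c j * DD (s j) t = DD (s i) t + ∑ j ∈ univ.erase i, c j * DD (s j) t := by
    rw [← Finset.add_sum_erase univ _ (Finset.mem_univ i), hci, one_mul]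
  have hcsplit : ∑ j ∈ univ.erase i, c j = n - 1 := by
    have := Finset.add_sum_erase univ c (Finset.mem_univ i)
    rw [hn, hci] at this
    linarith
  rw [hsplit]
  -- lower bound of the sum
  have hlow : (1 - t ^ 2) ^ 2 * ∑ j ∈ univ.erase i, hh k0 k1 (c j)
      ≤ ∑ j ∈ univ.erase i, c j * DD (s j) t + ∑ j ∈ univ.erase i, c j * (1 - s j ^ 2) * S j
        + lam * (n - 1) * DD (s i) t := by
    have e1 : lam * (n - 1) * DD (s i) t = ∑ j ∈ univ.erase i, c j * (lam * DD (s i) t) := by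
      rw [← Finset.sum_mul, hcsplit]; ring
    rw [e1, Finset.mul_sum, ← Finset.sum_add_distrib, ← Finset.sum_add_distrib]
    apply Finset.sum_le_sum
    intro j hj
    have hji : j ≠ i := Finset.ne_of_mem_erase hj
    have := mul_le_mul_of_nonneg_left (hPI j hji) (hc j).1
    unfold hh
    calc (1 - t ^ 2) ^ 2 * (c j * (1 - c j) * (k0 + k1 * c j))
        = c j * ((1 - t ^ 2) ^ 2 * (1 - c j) * (k0 + k1 * c j)) := by ring
      _ ≤ _ := this
      _ = _ := by ring
  have hDi : 0 ≤ DD (s i) t := DD_nonneg (hs i) ht0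
  have hlamn : lam * (n - 1) * DD (s i) t ≤ DD (s i) t := by
    have h1 : lam * (n - 1) ≤ lam * m := mul_le_mul_of_nonneg_left (by linarith) hlam
    have h2 : lam * (n - 1) ≤ 1 := le_trans h1 hlam1
    calc lam * (n - 1) * DD (s i) t ≤ 1 * DD (s i) t := mul_le_mul_of_nonneg_right h2 hDi
      _ = DD (s i) t := one_mul _
  -- integrality
  have hint := integrality (univ.erase i) c hk1 hk0 (fun j _ => hc j) (m - 1)
    (φ := n - m) (by linarith) (by linarith) (by
      rw [hcsplit]
      have : ((m - 1 : ℕ) : ℝ) = (m : ℝ) - 1 := by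
        rw [Nat.cast_sub (by omega)]; norm_num
      rw [this]; ring)
  have hH : n * (LL m (1 - t ^ 2) - ee t) < (1 - t ^ 2) ^ 2 * hh k0 k1 (n - m) := by
    rw [LL_sub hm ht0]
    have e1 : sm (m + 1) ^ 2 - t ^ 2 = (m + 1 - n) / (n * (m + 1)) := by
      rw [sm_sq (by omega)]
      push_cast
      have : t ^ 2 = 1 - 1 / n := by linarith
      rw [this]
      field_simp
      ring
    have e2 : t ^ 2 - sm m ^ 2 = (n - m) / (n * m) := by
      rw [sm_sq (by omega)]
      have : t ^ 2 = 1 - 1 / n := by linarith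
      rw [this]
      field_simp
      ring
    rw [e1, e2, ht]
    unfold hh
    have hpos : 0 < (m + 1 - n) * (n - m) := mul_pos (by linarith) (by linarith)
    have lhs : n * ((m + 1 - n) / (n * (m + 1)) * ((n - m) / (n * m)) * E3 (sm (m + 1)) (sm m) t)
        = ((m + 1 - n) * (n - m)) * (E3 (sm (m + 1)) (sm m) t * n) / (n ^ 2 * (m * (m + 1))) := by
      field_simp
    have rhs : (1 / n) ^ 2 * ((n - m) * (1 - (n - m)) * (k0 + k1 * (n - m)))
        = ((m + 1 - n) * (n - m)) * ((k0 + k1 * (n - m)) * (m * (m + 1)))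
          / (n ^ 2 * (m * (m + 1))) := by
      field_simp
      ring
    rw [lhs, rhs]
    apply div_lt_div_of_pos_right _ (by positivity)
    exact mul_lt_mul_of_pos_left hHI hpos
  have hint2 : (1 - t ^ 2) ^ 2 * hh k0 k1 (n - m)
      ≤ (1 - t ^ 2) ^ 2 * ∑ j ∈ univ.erase i, hh k0 k1 (c j) :=
    mul_le_mul_of_nonneg_left hint (sq_nonneg _)
  linarith

/-- **Row inequality**, with equality case. -/
theorem row_ineq {m : ℕ} (hm : 3 ≤ m) (i : ι) (c s Pr : ι → ℝ)
    (hs : ∀ j, 0 < s j ∧ s j ≤ 1) (hc : ∀ j, 0 ≤ c j ∧ c j ≤ 1) (hci : c i = 1)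
    (hP : ∀ j, Pr j ^ 2 = (1 - s i ^ 2) * (1 - s j ^ 2) * c j)
    (hsum : ∑ j, c j * (1 - s j ^ 2) = 1) :
    0 ≤ ∑ j, c j * (ee (s j) - LL m (1 - s j ^ 2))
      + ∑ j ∈ univ.erase i, c j * (1 - s j ^ 2) * SS (s i) (s j) (Pr j) ∧
    (∑ j, c j * (ee (s j) - LL m (1 - s j ^ 2))
      + ∑ j ∈ univ.erase i, c j * (1 - s j ^ 2) * SS (s i) (s j) (Pr j) = 0 →
      (1 - s i ^ 2 = 1 / (m : ℝ) ∨ 1 - s i ^ 2 = 1 / ((m : ℝ) + 1)) ∧
      (∀ j, c j ≠ 0 → s j = s i) ∧
      (∀ j, j ≠ i → c j ≠ 0 → SS (s i) (s j) (Pr j) = 0)) := by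
  have hm0 : (0:ℝ) < m := by exact_mod_cast (by omega : 0 < m)
  have hm3 : (3:ℝ) ≤ m := by exact_mod_cast hm
  obtain ⟨n, hn⟩ : ∃ n, ∑ j, c j = n := ⟨_, rfl⟩
  -- n > 1
  have hn1 : 1 < n := by
    rw [← hn, ← hsum]
    apply Finset.sum_lt_sum
    · intro j _
      have := (hc j).1
      nlinarith [sq_nonneg (s j)]
    · refine ⟨i, Finset.mem_univ i, ?_⟩
      rw [hci]
      have := sq_pos_of_pos (hs i).1
      linarith
  have hn0 : 0 < n := by linarith
  set t : ℝ := √(1 - 1 / n) with htd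
  have hinv : 1 / n < 1 := by rw [div_lt_one hn0]; exact hn1
  have hinv0 : 0 < 1 / n := by positivity
  have ht0 : 0 < t := Real.sqrt_pos.mpr (by linarith)
  have htsq : t ^ 2 = 1 - 1 / n := Real.sq_sqrt (by linarith)
  have ht : 1 - t ^ 2 = 1 / n := by rw [htsq]; ring
  have ht1 : t ≤ 1 := Real.sqrt_le_one.mpr (by linarith)
  have hPabs : ∀ j, |Pr j| ≤ ((1 - s i ^ 2) + (1 - s j ^ 2)) / 2 := by
    intro j
    have hx : 0 ≤ 1 - s i ^ 2 := by nlinarith [hs i]
    have hy : 0 ≤ 1 - s j ^ 2 := by nlinarith [hs j]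
    apply abs_le_of_sq_le_sq _ (by positivity)
    rw [hP j]
    have h1 : (1 - s i ^ 2) * (1 - s j ^ 2) * c j ≤ (1 - s i ^ 2) * (1 - s j ^ 2) * 1 :=
      mul_le_mul_of_nonneg_left (hc j).2 (mul_nonneg hx hy)
    nlinarith [sq_nonneg ((1 - s i ^ 2) - (1 - s j ^ 2))]
  have hSS : ∀ j, 0 ≤ SS (s i) (s j) (Pr j) := fun j =>
    SS_nonneg (hs i).1 (hs i).2 (hs j).1 (hs j).2 (hPabs j)
  have hpj : ∀ j, 0 ≤ 1 - s j ^ 2 := fun j => by nlinarith [hs j]
  by_cases hcase : (m : ℝ) < n ∧ n < (m : ℝ) + 1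
  · -- strictly positive
    obtain ⟨hA, hB⟩ := hcase
    have hpos : 0 < ∑ j, c j * (ee (s j) - LL m (1 - s j ^ 2))
      + ∑ j ∈ univ.erase i, c j * (1 - s j ^ 2) * SS (s i) (s j) (Pr j) := by
      rcases Nat.lt_or_ge m 4 with h4 | h4
      · -- m = 3
        have hm3' : m = 3 := by omega
        subst hm3'
        push_cast at hA hB
        apply row_core (m := 3) (by norm_num) i c s (fun j => SS (s i) (s j) (Pr j))
          (k0 := 1 / 16) (k1 := 1 / 64) (lam := 1 / 3) (by norm_num) (by norm_num) (by norm_num)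
          (by norm_num) (fun j => (hs j).1) hc hci hn (by push_cast; exact hA)
          (by push_cast; exact hB) hsum ht0 ht
        · have q1 : sm (3 + 1) ^ 2 = 3 / 4 := by rw [sm_sq (by norm_num)]; norm_num
          have q2 : sm 3 ^ 2 = 2 / 3 := by rw [sm_sq (by norm_num)]; norm_num
          have u1 : 1 / n ≤ 1 / 3 := by
            apply one_div_le_one_div_of_le (by norm_num) hA.le
          have u2 : 1 / 4 ≤ 1 / n := by
            apply one_div_le_one_div_of_le hn0; linarith
          have hE := HI3 q1 (sm_pos (by norm_num)) q2 (sm_pos (by norm_num)) (t := t)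
            (by rw [htsq]; linarith) (by rw [htsq]; linarith) ht0
          have e1 : 3 / 16 * (2 - t ^ 2) * n = 3 / 16 * (n + 1) := by
            rw [htsq]; field_simp; ring
          have e2 := mul_lt_mul_of_pos_right hE hn0
          rw [e1] at e2
          push_cast
          linarith
        · intro j _
          have ht34 : t ^ 2 ≤ 3 / 4 := by
            rw [htsq]
            have : 1 / 4 ≤ 1 / n := by
              apply one_div_le_one_div_of_le hn0; linarith
            linarith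
          have := PI3 (hs i).1 (hs i).2 (hs j).1 (hs j).2 ht0 ht34 (hc j).1 (hc j).2 (hP j)
          have e : (1:ℝ) / 16 + 1 / 64 * c j = 1 / 16 + c j / 64 := by ring
          rw [e]
          linarith
      · -- m ≥ 4
        have hm4 : (4:ℝ) ≤ m := by exact_mod_cast h4
        apply row_core (m := m) (by omega) i c s (fun j => SS (s i) (s j) (Pr j))
          (k0 := 1 / 24) (k1 := 1 / 72) (lam := 0) (by norm_num) (by norm_num) (by norm_num)
          (by norm_num) (fun j => (hs j).1) hc hci hn hA hB hsum ht0 ht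
        · rcases Nat.lt_or_ge m 5 with h5 | h5
          · have hm4' : m = 4 := by omega
            subst hm4'
            push_cast at hA hB
            have q1 : sm (4 + 1) ^ 2 = 4 / 5 := by rw [sm_sq (by norm_num)]; norm_num
            have q2 : sm 4 ^ 2 = 3 / 4 := by rw [sm_sq (by norm_num)]; norm_num
            have u1 : 1 / n ≤ 1 / 4 := by
              apply one_div_le_one_div_of_le (by norm_num) hA.le
            have hE := HI4 q1 (sm_pos (by norm_num)) q2 (sm_pos (by norm_num)) (t := t)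
              (by rw [htsq]; linarith) ht0
            have e2 := mul_lt_mul_of_pos_right hE hn0
            push_cast
            linarith
          · have hm5 : (5:ℝ) ≤ m := by exact_mod_cast h5
            have q2 : 4 / 5 ≤ sm m ^ 2 := by
              rw [sm_sq (by omega)]
              have : 1 / (m:ℝ) ≤ 1 / 5 := one_div_le_one_div_of_le (by norm_num) hm5
              linarith
            have q1 : 4 / 5 ≤ sm (m + 1) ^ 2 := by
              rw [sm_sq (by omega)]
              have : 1 / (((m + 1 : ℕ)) : ℝ) ≤ 1 / 5 :=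
                one_div_le_one_div_of_le (by norm_num) (by push_cast; linarith)
              linarith
            have hst : sm m ≤ t := by
              unfold sm
              rw [htd]
              apply Real.sqrt_le_sqrt
              have : 1 / n ≤ 1 / (m:ℝ) := one_div_le_one_div_of_le hm0 hA.le
              linarith
            have hE := HI5 q1 sm_le_one (sm_pos (by omega)) q2 (sm_pos (by omega)) hst ht0
            have e2 := mul_lt_mul_of_pos_right hE hn0
            have e3 : (0.2:ℝ) * n ≤ 1 / 24 * (m * (m + 1)) := by nlinarith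
            have e4 : (1:ℝ) / 24 * (m * (m + 1)) ≤ (1 / 24 + 1 / 72 * (n - m)) * (m * (m + 1)) := by
              apply mul_le_mul_of_nonneg_right _ (by positivity)
              linarith
            linarith
        · intro j _
          have := PI4 (hs i).1 (hs i).2 (hs j).1 (hs j).2 ht0 ht1 (hc j).1 (hc j).2 (hP j)
          have e : (1:ℝ) / 24 + 1 / 72 * c j = 1 / 24 + c j / 72 := by ring
          rw [e]
          linarith
    exact ⟨hpos.le, fun h0 => absurd h0 hpos.ne'⟩
  · -- n outside (m, m+1)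
    rw [row_identity c s hn hn0.ne' hsum ht]
    have hE := E3_pos (sm_pos (m := m + 1) (by omega)) (sm_pos (m := m) (by omega)) ht0
    have e1 : sm (m + 1) ^ 2 - t ^ 2 = (m + 1 - n) / (n * (m + 1)) := by
      rw [sm_sq (by omega), htsq]
      push_cast
      field_simp
      ring
    have e2 : t ^ 2 - sm m ^ 2 = (n - m) / (n * m) := by
      rw [sm_sq (by omega), htsq]
      field_simp
      ring
    have hprod : (m + 1 - n) * (n - m) ≤ 0 := by
      rcases not_and_or.mp hcase with h | h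
      · push Not at h
        exact mul_nonpos_of_nonneg_of_nonpos (by linarith) (by linarith)
      · push Not at h
        exact mul_nonpos_of_nonpos_of_nonneg (by linarith) (by linarith)
    have hLid : n * (LL m (1 - t ^ 2) - ee t)
        = ((m + 1 - n) * (n - m)) * (E3 (sm (m + 1)) (sm m) t / (n * (m * (m + 1)))) := by
      rw [LL_sub (by omega) ht0, e1, e2]
      field_simp
    have hLneg : n * (LL m (1 - t ^ 2) - ee t) ≤ 0 := by
      rw [hLid]
      exact mul_nonpos_of_nonpos_of_nonneg hprod (by positivity)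
    have hD : 0 ≤ ∑ j, c j * DD (s j) t :=
      Finset.sum_nonneg (fun j _ => mul_nonneg (hc j).1 (DD_nonneg (hs j).1 ht0))
    have hS : 0 ≤ ∑ j ∈ univ.erase i, c j * (1 - s j ^ 2) * SS (s i) (s j) (Pr j) :=
      Finset.sum_nonneg (fun j _ => mul_nonneg (mul_nonneg (hc j).1 (hpj j)) (hSS j))
    refine ⟨by linarith, ?_⟩
    intro h0
    have hL0 : n * (LL m (1 - t ^ 2) - ee t) = 0 := by linarith
    have hD0 : ∑ j, c j * DD (s j) t = 0 := by linarith
    have hS0 : ∑ j ∈ univ.erase i, c j * (1 - s j ^ 2) * SS (s i) (s j) (Pr j) = 0 := by linarith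
    have hDall := (Finset.sum_eq_zero_iff_of_nonneg
      (fun j _ => mul_nonneg (hc j).1 (DD_nonneg (hs j).1 ht0))).mp hD0
    have hst : ∀ j, c j ≠ 0 → s j = t := by
      intro j hj
      have := hDall j (Finset.mem_univ j)
      rcases mul_eq_zero.mp this with h | h
      · exact absurd h hj
      · exact DD_eq_zero (hs j).1 ht0 h
    have hsi : s i = t := hst i (by rw [hci]; exact one_ne_zero)
    have hnm : n = m ∨ n = m + 1 := by
      rw [hLid] at hL0
      have hne : E3 (sm (m + 1)) (sm m) t / (n * (m * (m + 1))) ≠ 0 := by positivity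
      rcases mul_eq_zero.mp hL0 with h | h
      · rcases mul_eq_zero.mp h with h | h
        · right; linarith
        · left; linarith
      · exact absurd h hne
    refine ⟨?_, ?_, ?_⟩
    · rw [hsi, ht]
      rcases hnm with h | h
      · left; rw [h]
      · right; rw [h]
    · intro j hj
      rw [hst j hj, hsi]
    · intro j hji hj
      have hSall := (Finset.sum_eq_zero_iff_of_nonneg
        (fun j _ => mul_nonneg (mul_nonneg (hc j).1 (hpj j)) (hSS j))).mp hS0
      have := hSall j (Finset.mem_erase.mpr ⟨hji, Finset.mem_univ j⟩)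
      rcases mul_eq_zero.mp this with h | h
      · exfalso
        rcases mul_eq_zero.mp h with h | h
        · exact hj h
        · rw [hst j hj] at h
          rw [ht] at h
          exact absurd h hinv0.ne'
      · exact h

end row

end Pool.Agent.Helper86.DistSum
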