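import Pool.Agent.Helper86.DistSum.Analysis

/-!
Lower bound for the saving term.
-/

namespace Pool.Agent.Helper86.DistSum

/-- saving factor: `SS s1 s2 P = (ω1+ω2)/2 - ν^2/(1-νP)` with `ν` the average of `1/(1+s)`. -/
noncomputable def nub (s1 s2 : ℝ) : ℝ := (1 / (1 + s1) + 1 / (1 + s2)) / 2

noncomputable def SS (s1 s2 P : ℝ) : ℝ :=
  (ww s1 + ww s2) / 2 - nub s1 s2 ^ 2 / (1 - nub s1 s2 * P)

lemma nub_comm (s1 s2 : ℝ) : nub s1 s2 = nub s2 s1 := by unfold nub; ring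

lemma SS_comm (s1 s2 P : ℝ) : SS s1 s2 P = SS s2 s1 P := by
  unfold SS; rw [nub_comm s1 s2, add_comm (ww s1)]

lemma sav_b1 {u v : ℝ} (hu : 1 / 2 ≤ u) (hv : 1 / 2 ≤ v) (hu1 : u < 1) (hv1 : v < 1) :
    ((2 * u - 1) / u ^ 2 + (2 * v - 1) / v ^ 2) / 2
      ≤ (2 * ((u + v) / 2) - 1) / ((u + v) / 2) ^ 2 := by
  have hu0 : 0 < u := by linarith
  have hv0 : 0 < v := by linarith
  rw [div_add_div _ _ (by positivity) (by positivity), div_div,
    div_le_div_iff₀ (by positivity) (by positivity)]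
  have h1 : 0 ≤ (u - v) ^ 2 * ((u + v) ^ 2 - 2 * (u + v - 1) * (u * v)) := by
    apply mul_nonneg (sq_nonneg _)
    have h2 : u * v ≤ (u + v) ^ 2 / 4 := by nlinarith [sq_nonneg (u - v)]
    have h3 : 0 ≤ u + v - 1 := by linarith
    have h4 : 2 * (u + v - 1) * (u * v) ≤ 2 * (u + v - 1) * ((u + v) ^ 2 / 4) := by
      apply mul_le_mul_of_nonneg_left h2; positivity
    have h5 : 2 * (u + v - 1) * ((u + v) ^ 2 / 4) ≤ (u + v) ^ 2 := by
      nlinarith [sq_nonneg (u + v)]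
    linarith
  nlinarith [h1]

lemma sav_b2 {u v : ℝ} (hu : 1 / 2 ≤ u) (hv : 1 / 2 ≤ v) (hu1 : u < 1) (hv1 : v < 1) :
    ((u + v) / 2) ^ 3 / (1 - (u + v) / 2)
      ≤ (u ^ 3 / (1 - u) + v ^ 3 / (1 - v)) / 2 := by
  have a : 0 < 1 - u := by linarith
  have b : 0 < 1 - v := by linarith
  have c : 0 < 1 - (u + v) / 2 := by linarith
  have e1 : ∀ z : ℝ, 0 < 1 - z → z ^ 3 / (1 - z) = 1 / (1 - z) - 1 - z - z ^ 2 := by
    intro z hz
    field_simp
    ring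
  rw [e1 _ c, e1 _ a, e1 _ b]
  -- reduce
  have key : 1 / (1 - (u + v) / 2) + (u - v) ^ 2 / 4 ≤ (1 / (1 - u) + 1 / (1 - v)) / 2 := by
    have h1 : (1 / (1 - u) + 1 / (1 - v)) / 2 - 1 / (1 - (u + v) / 2)
        = ((u - v) ^ 2 / 4) / ((1 - (u + v) / 2) * ((1 - u) * (1 - v))) := by
      have gen : ∀ x y : ℝ, 0 < x → 0 < y → (1 / x + 1 / y) / 2 - 1 / ((x + y) / 2)
          = ((x - y) ^ 2 / 4) / (((x + y) / 2) * (x * y)) := by
        intro x y hx hy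
        have : x + y ≠ 0 := by positivity
        field_simp
        ring
      have := gen (1 - u) (1 - v) a b
      have e2 : ((1 - u) + (1 - v)) / 2 = 1 - (u + v) / 2 := by ring
      have e3 : ((1 - u) - (1 - v)) ^ 2 = (u - v) ^ 2 := by ring
      rw [e2, e3] at this
      exact this
    have h2 : (u - v) ^ 2 / 4 ≤ ((u - v) ^ 2 / 4) / ((1 - (u + v) / 2) * ((1 - u) * (1 - v))) := by
      rw [le_div_iff₀ (by positivity)]
      have h3 : (1 - (u + v) / 2) * ((1 - u) * (1 - v)) ≤ 1 := by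
        have h4 : (1 - u) * (1 - v) ≤ 1 := by nlinarith
        have h5 : 0 ≤ (1 - u) * (1 - v) := by positivity
        nlinarith
      have h6 : 0 ≤ (u - v) ^ 2 / 4 := by positivity
      nlinarith
    linarith
  nlinarith [key]

/-- `p(ν)` in terms of `ν`. -/
lemma conv_nu {s : ℝ} (hs : 0 < s) :
    1 - s ^ 2 = (2 * (1 / (1 + s)) - 1) / (1 / (1 + s)) ^ 2 ∧
    ww s = (1 / (1 + s)) ^ 3 / (1 - 1 / (1 + s)) := by
  have h : (1 + s) ≠ 0 := by positivity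
  constructor
  · field_simp
    ring
  · unfold ww
    have : 1 - 1 / (1 + s) = s / (1 + s) := by field_simp; ring
    rw [this]
    field_simp

lemma nub_bounds {s1 s2 : ℝ} (h1 : 0 < s1) (h1' : s1 ≤ 1) (h2 : 0 < s2) (h2' : s2 ≤ 1) :
    1 / 2 ≤ nub s1 s2 ∧ nub s1 s2 < 1 := by
  unfold nub
  have a1 : 1 / 2 ≤ 1 / (1 + s1) := by
    rw [div_le_div_iff₀ (by norm_num) (by positivity)]; linarith
  have a2 : 1 / 2 ≤ 1 / (1 + s2) := by
    rw [div_le_div_iff₀ (by norm_num) (by positivity)]; linarith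
  have b1 : 1 / (1 + s1) < 1 := by
    rw [div_lt_one (by positivity)]; linarith
  have b2 : 1 / (1 + s2) < 1 := by
    rw [div_lt_one (by positivity)]; linarith
  constructor <;> linarith

/-- `ν ≥ (1 + p/4)/2`. -/
lemma nub_lower {s1 s2 : ℝ} (h1 : 0 < s1) (h1' : s1 ≤ 1) (h2 : 0 < s2) (h2' : s2 ≤ 1) :
    (1 + ((1 - s1 ^ 2) + (1 - s2 ^ 2)) / 2 / 4) / 2 ≤ nub s1 s2 := by
  unfold nub
  have key : ∀ s : ℝ, 0 < s → s ≤ 1 → (1 + (1 - s ^ 2) / 4) / 2 ≤ 1 / (1 + s) := by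
    intro s hs hs1
    rw [le_div_iff₀ (by positivity)]
    have : 0 ≤ (1 - s) ^ 2 * (3 + s) := by positivity
    nlinarith
  have a := key s1 h1 h1'
  have b := key s2 h2 h2'
  linarith

lemma nub_p_lt {s1 s2 : ℝ} (h1 : 0 < s1) (h1' : s1 ≤ 1) (h2 : 0 < s2) (h2' : s2 ≤ 1) :
    nub s1 s2 * (((1 - s1 ^ 2) + (1 - s2 ^ 2)) / 2) < 1 := by
  have hb := nub_bounds h1 h1' h2 h2'
  have hp : ((1 - s1 ^ 2) + (1 - s2 ^ 2)) / 2 < 1 := by nlinarith [sq_pos_of_pos h1, sq_pos_of_pos h2]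
  have hp0 : 0 ≤ ((1 - s1 ^ 2) + (1 - s2 ^ 2)) / 2 := by nlinarith
  nlinarith

/-- main estimate at `P = p̄`. -/
lemma sav_b {s1 s2 : ℝ} (h1 : 0 < s1) (h1' : s1 ≤ 1) (h2 : 0 < s2) (h2' : s2 ≤ 1) :
    nub s1 s2 ^ 2 / (1 - nub s1 s2 * (((1 - s1 ^ 2) + (1 - s2 ^ 2)) / 2))
      ≤ (ww s1 + ww s2) / 2 := by
  have hb := nub_bounds h1 h1' h2 h2'
  have hpl := nub_p_lt h1 h1' h2 h2'
  obtain ⟨c1, c1'⟩ := conv_nu h1
  obtain ⟨c2, c2'⟩ := conv_nu h2
  set u := 1 / (1 + s1) with hu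
  set v := 1 / (1 + s2) with hv
  have hu0 : 1 / 2 ≤ u := by
    rw [hu, div_le_div_iff₀ (by norm_num) (by positivity)]; linarith
  have hv0 : 1 / 2 ≤ v := by
    rw [hv, div_le_div_iff₀ (by norm_num) (by positivity)]; linarith
  have hu1 : u < 1 := by
    rw [hu, div_lt_one (by positivity)]; linarith
  have hv1 : v < 1 := by
    rw [hv, div_lt_one (by positivity)]; linarith
  have hn : nub s1 s2 = (u + v) / 2 := rfl
  have hb1 := sav_b1 hu0 hv0 hu1 hv1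
  have hb2 := sav_b2 hu0 hv0 hu1 hv1
  rw [c1', c2']
  refine le_trans ?_ hb2
  rw [hn]
  rw [hn] at hb hpl
  rw [c1, c2] at hpl ⊢
  set n := (u + v) / 2 with hndef
  have hn0 : 0 < n := by linarith [hb.1]
  have hq : 1 - n * ((2 * n - 1) / n ^ 2) = (1 - n) / n := by field_simp; ring
  have hle : (1 - n) / n ≤ 1 - n * (((2 * u - 1) / u ^ 2 + (2 * v - 1) / v ^ 2) / 2) := by
    rw [← hq]
    have := mul_le_mul_of_nonneg_left hb1 hn0.le
    linarith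
  have hpos : 0 < (1 - n) / n := div_pos (by linarith [hb.2]) hn0
  calc n ^ 2 / (1 - n * (((2 * u - 1) / u ^ 2 + (2 * v - 1) / v ^ 2) / 2))
      ≤ n ^ 2 / ((1 - n) / n) := by
        apply div_le_div_of_nonneg_left (by positivity) hpos hle
    _ = n ^ 3 / (1 - n) := by
        have : (1 - n) ≠ 0 := by linarith [hb.2]
        field_simp

/-- The key lower bound for the saving. -/
lemma SS_lower {s1 s2 P : ℝ} (h1 : 0 < s1) (h1' : s1 ≤ 1) (h2 : 0 < s2) (h2' : s2 ≤ 1)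
    (hP : |P| ≤ ((1 - s1 ^ 2) + (1 - s2 ^ 2)) / 2) :
    1 / 8 * (1 + 5 / 4 * (((1 - s1 ^ 2) + (1 - s2 ^ 2)) / 2) + 1 / 2 * |P|)
        * (((1 - s1 ^ 2) + (1 - s2 ^ 2)) / 2 - |P|)
      ≤ SS s1 s2 P := by
  have hb := nub_bounds h1 h1' h2 h2'
  have hl := nub_lower h1 h1' h2 h2'
  have hpl := nub_p_lt h1 h1' h2 h2'
  have hsb := sav_b h1 h1' h2 h2'
  unfold SS
  set n := nub s1 s2 with hn
  set p := ((1 - s1 ^ 2) + (1 - s2 ^ 2)) / 2 with hp
  have hP0 : 0 ≤ |P| := abs_nonneg P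
  have hp0 : 0 ≤ p := le_trans hP0 hP
  have hn0 : 0 < n := by linarith [hb.1]
  have ha1 : 0 < 1 - n * p := by linarith
  have ha2 : 0 < 1 - n * |P| := by nlinarith
  have ha3 : 0 < 1 - n * P := by nlinarith [le_abs_self P]
  have hmono : n ^ 2 / (1 - n * P) ≤ n ^ 2 / (1 - n * |P|) := by
    apply div_le_div_of_nonneg_left (by positivity) ha2
    nlinarith [le_abs_self P]
  have hdiff : n ^ 2 / (1 - n * p) - n ^ 2 / (1 - n * |P|)
      = n ^ 3 * (p - |P|) / ((1 - n * p) * (1 - n * |P|)) := by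
    field_simp
    ring
  have hfin : 1 / 8 * (1 + 5 / 4 * p + 1 / 2 * |P|) * (p - |P|)
      ≤ n ^ 3 * (p - |P|) / ((1 - n * p) * (1 - n * |P|)) := by
    rw [le_div_iff₀ (by positivity)]
    have hdp : 0 ≤ p - |P| := by linarith
    have hcoef : 1 / 8 * (1 + 5 / 4 * p + 1 / 2 * |P|) * ((1 - n * p) * (1 - n * |P|)) ≤ n ^ 3 := by
      -- n ≥ 1/2 (1+p/4)
      have e1 : 1 - n * p ≤ 1 - p / 2 := by nlinarith [hb.1]
      have e2 : 1 - n * |P| ≤ 1 - |P| / 2 := by nlinarith [hb.1]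
      have e3 : (1 + p / 2) * (1 - n * p) ≤ 1 := by nlinarith [sq_nonneg p]
      have e4 : (1 + |P| / 2) * (1 - n * |P|) ≤ 1 := by nlinarith [sq_nonneg (|P|)]
      have e5 : 1 / 8 * (1 + 3 / 4 * p) ≤ n ^ 3 := by
        have h3 : (1 + p / 4) / 2 ≤ n := hl
        have h4 : ((1 + p / 4) / 2) ^ 3 ≤ n ^ 3 := pow_le_pow_left₀ (by positivity) h3 3
        have h5 : 1 / 8 * (1 + 3 / 4 * p) ≤ ((1 + p / 4) / 2) ^ 3 := by
          have : ((1 + p / 4) / 2) ^ 3 = 1 / 8 * (1 + 3 / 4 * p) + (3 * p ^ 2 / 16 + p ^ 3 / 64) / 8 := by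
            ring
          rw [this]
          have : 0 ≤ (3 * p ^ 2 / 16 + p ^ 3 / 64) / 8 := by positivity
          linarith
        linarith
      have e6 : (1 + 5 / 4 * p + 1 / 2 * |P|) ≤ (1 + 3 / 4 * p) * ((1 + p / 2) * (1 + |P| / 2)) := by
        nlinarith [mul_nonneg hp0 hP0, mul_nonneg hp0 hp0, mul_nonneg (mul_nonneg hp0 hp0) hP0]
      calc 1 / 8 * (1 + 5 / 4 * p + 1 / 2 * |P|) * ((1 - n * p) * (1 - n * |P|))
          ≤ 1 / 8 * ((1 + 3 / 4 * p) * ((1 + p / 2) * (1 + |P| / 2))) * ((1 - n * p) * (1 - n * |P|)) := by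
            apply mul_le_mul_of_nonneg_right _ (by positivity)
            linarith
        _ = (1 / 8 * (1 + 3 / 4 * p)) * (((1 + p / 2) * (1 - n * p)) * ((1 + |P| / 2) * (1 - n * |P|))) := by
            ring
        _ ≤ (1 / 8 * (1 + 3 / 4 * p)) * (1 * 1) := by
            apply mul_le_mul_of_nonneg_left _ (by positivity)
            apply mul_le_mul e3 e4 (by positivity) (by norm_num)
        _ ≤ n ^ 3 := by linarith
    calc 1 / 8 * (1 + 5 / 4 * p + 1 / 2 * |P|) * (p - |P|) * ((1 - n * p) * (1 - n * |P|))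
        = (p - |P|) * (1 / 8 * (1 + 5 / 4 * p + 1 / 2 * |P|) * ((1 - n * p) * (1 - n * |P|))) := by ring
      _ ≤ (p - |P|) * n ^ 3 := mul_le_mul_of_nonneg_left hcoef hdp
      _ = n ^ 3 * (p - |P|) := by ring
  linarith

lemma SS_nonneg {s1 s2 P : ℝ} (h1 : 0 < s1) (h1' : s1 ≤ 1) (h2 : 0 < s2) (h2' : s2 ≤ 1)
    (hP : |P| ≤ ((1 - s1 ^ 2) + (1 - s2 ^ 2)) / 2) : 0 ≤ SS s1 s2 P := by
  refine le_trans ?_ (SS_lower h1 h1' h2 h2' hP)
  have hP0 : 0 ≤ |P| := abs_nonneg P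
  have : 0 ≤ ((1 - s1 ^ 2) + (1 - s2 ^ 2)) / 2 := le_trans hP0 hP
  have : 0 ≤ ((1 - s1 ^ 2) + (1 - s2 ^ 2)) / 2 - |P| := by linarith
  positivity

/-- equality: if `s1 = s2 = s`, `|P| ≤ p` and `SS = 0` then `P = p`. -/
lemma SS_eq_zero {s P : ℝ} (h1 : 0 < s)
    (hP : |P| ≤ 1 - s ^ 2) (h : SS s s P = 0) : P = 1 - s ^ 2 := by
  unfold SS at h
  have hn : nub s s = 1 / (1 + s) := by unfold nub; ring
  rw [hn] at h
  have hPle := le_abs_self P
  have hs1 : (1 + s) ≠ 0 := by positivity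
  have hpos : 0 < 1 - 1 / (1 + s) * P := by
    have : 1 / (1 + s) * P ≤ 1 / (1 + s) * (1 - s ^ 2) := by
      apply mul_le_mul_of_nonneg_left (by linarith) (by positivity)
    have h2 : 1 / (1 + s) * (1 - s ^ 2) = 1 - s := by field_simp; ring
    linarith
  have h3 : (ww s + ww s) / 2 = (1 / (1 + s)) ^ 2 / s := by
    unfold ww; field_simp; ring
  rw [h3] at h
  have h4 : (1 / (1 + s)) ^ 2 / s = (1 / (1 + s)) ^ 2 / (1 - 1 / (1 + s) * P) := by linarith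
  have h5 : s = 1 - 1 / (1 + s) * P := by
    have h6 : (0:ℝ) < (1 / (1 + s)) ^ 2 := by positivity
    rw [div_eq_div_iff h1.ne' hpos.ne'] at h4
    exact (mul_left_cancel₀ h6.ne' h4).symm
  have h7 : (1 + s) * s = (1 + s) - P := by
    have : (1 + s) * s = (1 + s) * (1 - 1 / (1 + s) * P) := by rw [← h5]
    rw [this]; field_simp
  nlinarith

end Pool.Agent.Helper86.DistSum
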